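import Mathlib

/-!
Orders of subgroups of the alternating group of degree five, and of direct products of this group
with 2-groups.
-/

set_option autoImplicit false

namespace Pool.Agent.Lib_helper92.A5

/-- the alternating group of degree five -/
abbrev A : Type := alternatingGroup (Fin 5)

instance : IsSimpleGroup A := alternatingGroup.isSimpleGroup (by simp)

lemma card_A : Nat.card A = 60 := by
  rw [nat_card_alternatingGroup]
  simp [Nat.factorial]

/-- the orders of the proper non-trivial subgroups of `A` -/
def ords : Finset ℕ := {2, 3, 4, 5, 6, 10, 12}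

lemma index_ge (H : Subgroup A) (hH : H ≠ ⊤) : 5 ≤ H.index := by
  have h1 : H.normalCore = ⊥ := by
    rcases (inferInstance : H.normalCore.Normal).eq_bot_or_eq_top with h | h
    · exact h
    · exact absurd (top_le_iff.mp (h ▸ H.normalCore_le)) hH
  have h2 : H.normalCore.index ∣ Nat.factorial H.index := by
    rw [Subgroup.normalCore_eq_ker, Subgroup.index_ker, Subgroup.index_eq_card, ← Nat.card_perm]
    exact Subgroup.card_subgroup_dvd_card (MulAction.toPermHom A (A ⧸ H)).range
  rw [h1, Subgroup.index_bot, card_A] at h2
  by_contra hcon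
  have h3 : H.index < 5 := by omega
  interval_cases H.index <;> simp [Nat.factorial] at h2

lemma card_mem (H : Subgroup A) (h1 : H ≠ ⊥) (h2 : H ≠ ⊤) : Nat.card H ∈ ords := by
  have h3 := index_ge H h2
  have h4 := H.card_mul_index
  rw [card_A] at h4
  have h5 : Nat.card H ≤ 12 := by nlinarith
  have h6 : Nat.card H ∣ 60 := ⟨_, h4.symm⟩
  have h7 : Nat.card H ≠ 1 := fun h => h1 (Subgroup.card_eq_one.mp h)
  have h8 : 0 < Nat.card H := Nat.card_pos
  unfold ords
  interval_cases Nat.card H <;> simp_all

lemma sylow_card (p m : ℕ) [hp : Fact p.Prime] (h60 : 60 = p * m) (hm : ¬ p ∣ m) (P : Sylow p A) :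
    Nat.card P = p := by
  rw [P.card_eq_multiplicity, card_A, h60]
  have hp0 : p ≠ 0 := hp.out.ne_zero
  have hm0 : m ≠ 0 := by rintro rfl; simp at h60
  rw [Nat.factorization_mul hp0 hm0]
  simp [Nat.factorization_eq_zero_of_not_dvd hm, hp.out.factorization_self]

lemma normalizer_index (p m : ℕ) [hp : Fact p.Prime] (h60 : 60 = p * m) (hm : ¬ p ∣ m)
    (hpm : 1 < m) (P : Sylow p A) :
    5 ≤ (Subgroup.normalizer (P : Set A)).index ∧ (Subgroup.normalizer (P : Set A)).index ∣ m ∧
      (Subgroup.normalizer (P : Set A)).index % p = 1 := by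
  have hc := sylow_card p m h60 hm P
  have hidx : P.index = m := by
    have h1 := (P : Subgroup A).card_mul_index
    rw [card_A, h60] at h1
    have h2 : Nat.card (P : Subgroup A) = p := hc
    rw [h2] at h1
    exact Nat.eq_of_mul_eq_mul_left hp.out.pos h1
  refine ⟨?_, ?_, ?_⟩
  · apply index_ge
    intro htop
    have hn : (P : Subgroup A).Normal := Subgroup.normalizer_eq_top_iff.mp htop
    rcases hn.eq_bot_or_eq_top with h | h
    · have h2 : Nat.card (P : Subgroup A) = p := hc
      rw [h, Subgroup.card_bot] at h2
      exact hp.out.ne_one h2.symm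
    · have h3 : (P : Subgroup A).index = m := hidx
      rw [h, Subgroup.index_top] at h3
      omega
  · rw [← P.card_eq_index_normalizer, ← hidx]
    exact P.card_dvd_index
  · rw [← P.card_eq_index_normalizer]
    have h1 := card_sylow_modEq_one p A
    have h2 : 1 % p = 1 := Nat.mod_eq_of_lt hp.out.one_lt
    rw [← h2]
    exact h1

lemma exists_card (n : ℕ) (hn : n ∈ ords) : ∃ H : Subgroup A, Nat.card H = n := by
  have := Fact.mk Nat.prime_two
  have := Fact.mk Nat.prime_three
  have := Fact.mk Nat.prime_five
  simp only [ords, Finset.mem_insert, Finset.mem_singleton] at hn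
  rcases hn with rfl | rfl | rfl | rfl | rfl | rfl | rfl
  · simpa using Sylow.exists_subgroup_card_pow_prime (G := A) 2 (n := 1) (by rw [card_A]; norm_num)
  · simpa using Sylow.exists_subgroup_card_pow_prime (G := A) 3 (n := 1) (by rw [card_A]; norm_num)
  · simpa using Sylow.exists_subgroup_card_pow_prime (G := A) 2 (n := 2) (by rw [card_A]; norm_num)
  · simpa using Sylow.exists_subgroup_card_pow_prime (G := A) 5 (n := 1) (by rw [card_A]; norm_num)
  · -- order 6
    let P : Sylow 3 A := default
    obtain ⟨h1, h2, h3⟩ := normalizer_index 3 20 (by norm_num) (by norm_num) (by norm_num) P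
    refine ⟨Subgroup.normalizer (P : Set A), ?_⟩
    have h4 := (Subgroup.normalizer (P : Set A)).card_mul_index
    rw [card_A] at h4
    have h5 : (Subgroup.normalizer (P : Set A)).index ≤ 20 := Nat.le_of_dvd (by norm_num) h2
    have h6 : (Subgroup.normalizer (P : Set A)).index = 10 := by
      revert h1 h2 h3 h5
      generalize (Subgroup.normalizer (P : Set A)).index = x
      intro h1 h2 h3 h5
      interval_cases x <;> simp_all
    rw [h6] at h4
    omega
  · -- order 10
    let P : Sylow 5 A := default
    obtain ⟨h1, h2, h3⟩ := normalizer_index 5 12 (by norm_num) (by norm_num) (by norm_num) P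
    refine ⟨Subgroup.normalizer (P : Set A), ?_⟩
    have h4 := (Subgroup.normalizer (P : Set A)).card_mul_index
    rw [card_A] at h4
    have h5 : (Subgroup.normalizer (P : Set A)).index ≤ 12 := Nat.le_of_dvd (by norm_num) h2
    have h6 : (Subgroup.normalizer (P : Set A)).index = 6 := by
      revert h1 h2 h3 h5
      generalize (Subgroup.normalizer (P : Set A)).index = x
      intro h1 h2 h3 h5
      interval_cases x <;> simp_all
    rw [h6] at h4
    omega
  · -- order 12
    have htr : MulAction.IsPretransitive A (Fin 5) :=
      alternatingGroup.isPretransitive_of_three_le_card (Fin 5) (by simp)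
    refine ⟨MulAction.stabilizer A (0 : Fin 5), ?_⟩
    have h4 := (MulAction.stabilizer A (0 : Fin 5)).card_mul_index
    rw [card_A, MulAction.index_stabilizer_of_transitive] at h4
    simp only [Nat.card_eq_fintype_card (α := Fin 5), Fintype.card_fin] at h4
    omega

end Pool.Agent.Lib_helper92.A5
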