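import Mathlib
import Pool.Agent.Lib_helper92.A5

/-!
Orders of the non-normal subgroups of `A₅ × P`, where `P` is a finite 2-group.
-/

set_option autoImplicit false

namespace Pool.Agent.Lib_helper92.A5

/-- the orders of the non-normal subgroups -/
def NN (G : Type) [Group G] : Set ℕ := {n : ℕ | ∃ H : Subgroup G, Nat.card H = n ∧ ¬ H.Normal}

variable {P : Type} [Group P]

lemma card_eq (U : Subgroup (A × P)) :
    Nat.card U = Nat.card (U.map (MonoidHom.fst A P)) * Nat.card (U.comap (MonoidHom.inr A P)) := by
  let f : U →* A := (MonoidHom.fst A P).comp U.subtype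
  have h1 : f.range = U.map (MonoidHom.fst A P) := by
    rw [MonoidHom.range_comp, Subgroup.range_subtype]
  have h2 : Nat.card f.ker = Nat.card (U.comap (MonoidHom.inr A P)) := by
    apply Nat.card_congr
    refine ⟨fun x => ⟨x.1.1.2, ?_⟩, fun y => ⟨⟨(1, y.1), y.2⟩, ?_⟩, ?_, ?_⟩
    · have hx : x.1.1.1 = 1 := x.2
      have h3 : ((1 : A), x.1.1.2) = x.1.1 := Prod.ext hx.symm rfl
      rw [Subgroup.mem_comap, MonoidHom.inr_apply, h3]
      exact x.1.2
    · rw [MonoidHom.mem_ker]; rfl
    · intro x
      have hx : x.1.1.1 = 1 := x.2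
      apply Subtype.ext
      apply Subtype.ext
      exact Prod.ext hx.symm rfl
    · intro y
      rfl
  rw [← h1, ← h2, ← Subgroup.index_ker, mul_comm, Subgroup.card_mul_index]

variable [Finite P] {a : ℕ}

lemma pow_of_subgroup (hP : Nat.card P = 2 ^ a) (K : Subgroup P) :
    ∃ i ≤ a, Nat.card K = 2 ^ i := by
  have h := K.card_subgroup_dvd_card
  rw [hP] at h
  exact (Nat.dvd_prime_pow Nat.prime_two).mp h

theorem NN_prod (hP : Nat.card P = 2 ^ a) :
    NN (A × P) = {m | ∃ v ∈ ords, ∃ i ≤ a, m = v * 2 ^ i} ∪ (fun m => 60 * m) '' NN P := by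
  have := Fact.mk Nat.prime_two
  ext m
  constructor
  · rintro ⟨U, rfl, hU⟩
    set V := U.map (MonoidHom.fst A P) with hV
    set K := U.comap (MonoidHom.inr A P) with hK
    have hcard : Nat.card U = Nat.card V * Nat.card K := card_eq U
    obtain ⟨i, hi, hKi⟩ := pow_of_subgroup hP K
    by_cases hV1 : V = ⊥
    · left
      have hKn : K ≠ ⊥ := by
        intro hKb
        apply hU
        have hUb : U = ⊥ := by
          rw [← Subgroup.card_eq_one, hcard, hV1, hKb]
          simp
        rw [hUb]
        infer_instance
      have hi0 : i ≠ 0 := by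
        rintro rfl
        rw [pow_zero, Subgroup.card_eq_one] at hKi
        exact hKn hKi
      refine ⟨2, by simp [ords], i - 1, by omega, ?_⟩
      rw [hcard, hV1, Subgroup.card_bot, one_mul, hKi, ← pow_succ']
      congr 1
      omega
    · by_cases hV2 : V = ⊤
      · right
        have hNn : (U.comap (MonoidHom.inl A P)).Normal := by
          constructor
          intro n hn g
          have hg : g ∈ V := by rw [hV2]; trivial
          obtain ⟨u, hu, hug⟩ := hg
          have hu' : u.1 = g := hug
          have hn' : ((n : A), (1 : P)) ∈ U := hn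
          have h1 := U.mul_mem (U.mul_mem hu hn') (U.inv_mem hu)
          have h2 : u * (n, 1) * u⁻¹ = (g * n * g⁻¹, 1) := by
            apply Prod.ext
            · simp [hu']
            · simp
          rw [h2] at h1
          exact h1
        rcases hNn.eq_bot_or_eq_top with hN | hN
        · exfalso
          have hinj : Function.Injective ((MonoidHom.snd A P).comp U.subtype) := by
            rw [injective_iff_map_eq_one]
            rintro ⟨⟨x, y⟩, hxy⟩ h1
            have hy : y = 1 := h1
            subst hy
            have hx : x ∈ U.comap (MonoidHom.inl A P) := hxy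
            rw [hN, Subgroup.mem_bot] at hx
            subst hx
            rfl
          have h1 := Subgroup.card_dvd_of_injective _ hinj
          have h2 : 60 ∣ 2 ^ a := by
            rw [← hP]
            refine dvd_trans ?_ h1
            rw [hcard, hV2, Subgroup.card_top, card_A]
            exact dvd_mul_right _ _
          have h3 : 3 ∣ 2 ^ a := dvd_trans (by norm_num) h2
          have h4 := Nat.Prime.dvd_of_dvd_pow Nat.prime_three h3
          omega
        · refine ⟨Nat.card K, ⟨K, rfl, ?_⟩, ?_⟩
          · intro hKn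
            apply hU
            have hUe : U = (⊤ : Subgroup A).prod K := by
              ext ⟨x, y⟩
              have hx : x⁻¹ ∈ U.comap (MonoidHom.inl A P) := by rw [hN]; trivial
              have hx' : x ∈ U.comap (MonoidHom.inl A P) := by rw [hN]; trivial
              have hx1 : ((x⁻¹ : A), (1 : P)) ∈ U := hx
              have hx1' : ((x : A), (1 : P)) ∈ U := hx'
              rw [Subgroup.mem_prod]
              constructor
              · intro h
                refine ⟨trivial, ?_⟩
                have h2 := U.mul_mem hx1 h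
                have h3 : ((x⁻¹ : A), (1 : P)) * (x, y) = (1, y) := by
                  apply Prod.ext <;> simp
                rw [h3] at h2
                exact h2
              · rintro ⟨-, h⟩
                have h' : ((1 : A), y) ∈ U := h
                have h2 := U.mul_mem hx1' h'
                have h3 : ((x : A), (1 : P)) * (1, y) = (x, y) := by
                  apply Prod.ext <;> simp
                rw [h3] at h2
                exact h2
            rw [hUe]
            exact Subgroup.prod_normal _ _
          · rw [hcard, hV2, Subgroup.card_top, card_A]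
      · left
        exact ⟨Nat.card V, card_mem V hV1 hV2, i, hi, by rw [hcard, hKi]⟩
  · rintro (⟨v, hv, i, hi, rfl⟩ | ⟨m, ⟨K, rfl, hK⟩, rfl⟩)
    · obtain ⟨H, hH⟩ := exists_card v hv
      obtain ⟨K, hK⟩ := Sylow.exists_subgroup_card_pow_prime (G := P) 2 (n := i) (by
        rw [hP]; exact pow_dvd_pow 2 hi)
      refine ⟨H.prod K, ?_, ?_⟩
      · rw [Nat.card_congr (Subgroup.prodEquiv H K).toEquiv, Nat.card_prod, hH, hK]
      · intro hn
        have h1 : H.Normal := by
          have h2 := Subgroup.Normal.map hn (MonoidHom.fst A P) Prod.fst_surjective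
          have h3 : (H.prod K).map (MonoidHom.fst A P) = H := by
            ext x
            constructor
            · rintro ⟨⟨x', y⟩, hxy, rfl⟩
              exact hxy.1
            · intro hx
              exact ⟨(x, 1), ⟨hx, K.one_mem⟩, rfl⟩
          rwa [h3] at h2
        rcases h1.eq_bot_or_eq_top with h | h
        · rw [h, Subgroup.card_bot] at hH
          rw [← hH] at hv
          simp [ords] at hv
        · rw [h, Subgroup.card_top, card_A] at hH
          rw [← hH] at hv
          simp [ords] at hv
    · refine ⟨(⊤ : Subgroup A).prod K, ?_, ?_⟩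
      · rw [Nat.card_congr (Subgroup.prodEquiv _ K).toEquiv, Nat.card_prod, Subgroup.card_top,
          card_A]
      · intro hn
        apply hK
        have h2 := Subgroup.Normal.comap hn (MonoidHom.inr A P)
        have h3 : ((⊤ : Subgroup A).prod K).comap (MonoidHom.inr A P) = K := by
          ext x
          rw [Subgroup.mem_comap, Subgroup.mem_prod]
          simp
        rwa [h3] at h2

/-- the orders coming from the proper non-trivial subgroups of `A` -/
def FS (a : ℕ) : Finset ℕ :=
  ((Finset.Icc 1 (a + 2)).image (fun i => 2 ^ i) ∪ (Finset.range (a + 3)).image (fun i => 3 * 2 ^ i)) ∪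
    (Finset.range (a + 2)).image (fun i => 5 * 2 ^ i)

lemma pow_inj (c : ℕ) (hc : 0 < c) : Function.Injective (fun i : ℕ => c * 2 ^ i) := by
  intro i j h
  simp only at h
  exact Nat.pow_right_injective le_rfl (Nat.eq_of_mul_eq_mul_left hc h)

lemma three_not_dvd (i : ℕ) : ¬ 3 ∣ 2 ^ i := by
  intro h
  have := Nat.Prime.dvd_of_dvd_pow Nat.prime_three h
  omega

lemma five_not_dvd (i : ℕ) : ¬ 5 ∣ 2 ^ i := by
  intro h
  have := Nat.Prime.dvd_of_dvd_pow Nat.prime_five h
  omega

lemma card_FS (a : ℕ) : (FS a).card = 3 * a + 7 := by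
  unfold FS
  rw [Finset.card_union_of_disjoint, Finset.card_union_of_disjoint,
    Finset.card_image_of_injective _ (Nat.pow_right_injective le_rfl),
    Finset.card_image_of_injective _ (pow_inj 3 (by norm_num)),
    Finset.card_image_of_injective _ (pow_inj 5 (by norm_num)), Nat.card_Icc, Finset.card_range,
    Finset.card_range]
  · omega
  · rw [Finset.disjoint_left]
    intro x hx hx'
    rw [Finset.mem_image] at hx hx'
    obtain ⟨i, -, rfl⟩ := hx
    obtain ⟨j, -, hj⟩ := hx'
    exact three_not_dvd i ⟨_, hj.symm⟩
  · rw [Finset.disjoint_left]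
    intro x hx hx'
    rw [Finset.mem_union, Finset.mem_image, Finset.mem_image] at hx
    rw [Finset.mem_image] at hx'
    obtain ⟨j, -, hj⟩ := hx'
    have h5 : 5 ∣ x := ⟨_, hj.symm⟩
    rcases hx with ⟨i, -, rfl⟩ | ⟨i, -, rfl⟩
    · exact five_not_dvd i h5
    · rcases (Nat.Prime.dvd_mul Nat.prime_five).mp h5 with h | h
      · omega
      · exact five_not_dvd i h

lemma coe_FS (a : ℕ) : {m | ∃ v ∈ ords, ∃ i ≤ a, m = v * 2 ^ i} = (FS a : Set ℕ) := by
  ext m
  simp only [FS, Set.mem_ofPred_eq, Finset.coe_union, Set.mem_union, Finset.mem_coe,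
    Finset.mem_image, Finset.mem_Icc, Finset.mem_range]
  constructor
  · rintro ⟨v, hv, i, hi, rfl⟩
    simp only [ords, Finset.mem_insert, Finset.mem_singleton] at hv
    rcases hv with rfl | rfl | rfl | rfl | rfl | rfl | rfl
    · left; left; exact ⟨i + 1, by omega, by ring⟩
    · left; right; exact ⟨i, by omega, by ring⟩
    · left; left; exact ⟨i + 2, by omega, by ring⟩
    · right; exact ⟨i, by omega, by ring⟩
    · left; right; exact ⟨i + 1, by omega, by ring⟩
    · right; exact ⟨i + 1, by omega, by ring⟩
    · left; right; exact ⟨i + 2, by omega, by ring⟩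
  · rintro ((⟨i, hi, rfl⟩ | ⟨i, hi, rfl⟩) | ⟨i, hi, rfl⟩)
    · by_cases h : i = a + 2
      · exact ⟨4, by simp [ords], a, le_rfl, by rw [h]; ring⟩
      · obtain ⟨j, rfl⟩ : ∃ j, i = j + 1 := ⟨i - 1, by omega⟩
        exact ⟨2, by simp [ords], j, by omega, by ring⟩
    · by_cases h : i = a + 2
      · exact ⟨12, by simp [ords], a, le_rfl, by rw [h]; ring⟩
      · by_cases h' : i = a + 1
        · exact ⟨6, by simp [ords], a, le_rfl, by rw [h']; ring⟩
        · exact ⟨3, by simp [ords], i, by omega, by ring⟩
    · by_cases h : i = a + 1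
      · exact ⟨10, by simp [ords], a, le_rfl, by rw [h]; ring⟩
      · exact ⟨5, by simp [ords], i, by omega, by ring⟩

lemma finite_NN (G : Type) [Group G] [Finite G] : (NN G).Finite := by
  have : NN G ⊆ Set.range (fun H : Subgroup G => Nat.card H) := by
    rintro n ⟨H, hH, -⟩
    exact ⟨H, hH⟩
  exact (Set.finite_range _).subset this

theorem ncard_NN_prod (hP : Nat.card P = 2 ^ a) :
    (NN (A × P)).ncard = 3 * a + 7 + (NN P).ncard := by
  rw [NN_prod hP, coe_FS]
  have hinj : Function.Injective (fun m : ℕ => 60 * m) := by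
    intro x y h
    simp only at h
    omega
  rw [Set.ncard_union_eq ?_ (Finset.finite_toSet _) ((finite_NN P).image _),
    Set.ncard_coe_finset, card_FS, Set.ncard_image_of_injective _ hinj]
  rw [Set.disjoint_left]
  rintro x hx ⟨m, ⟨K, rfl, hK⟩, rfl⟩
  obtain ⟨i, hi, hKi⟩ := pow_of_subgroup hP K
  simp only [FS, Finset.coe_union, Set.mem_union, Finset.mem_coe,
    Finset.mem_image, Finset.mem_Icc, Finset.mem_range, hKi] at hx
  have h3 : 3 ∣ 60 * 2 ^ i := Dvd.dvd.mul_right (by norm_num) _
  have h5 : 5 ∣ 60 * 2 ^ i := Dvd.dvd.mul_right (by norm_num) _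
  rcases hx with (⟨j, -, hj⟩ | ⟨j, -, hj⟩) | ⟨j, -, hj⟩
  · rw [← hj] at h3
    exact three_not_dvd j h3
  · rw [← hj] at h5
    rcases (Nat.Prime.dvd_mul Nat.prime_five).mp h5 with h | h
    · omega
    · exact five_not_dvd j h
  · rw [← hj] at h3
    rcases (Nat.Prime.dvd_mul Nat.prime_three).mp h3 with h | h
    · omega
    · exact three_not_dvd j h

end Pool.Agent.Lib_helper92.A5
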