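import Mathlib

/-!
A parity proof of the Hex lemma for the triangulated square grid.
-/

set_option autoImplicit false

namespace Pool.Agent.Lib_helper92.Hex

/-- indicator of the label `(true, true)` -/
def lp (x : Bool × Bool) : ZMod 2 := if x = (true, true) then 1 else 0
/-- indicator of the label `(false, true)` -/
def lr (x : Bool × Bool) : ZMod 2 := if x = (false, true) then 1 else 0
/-- indicator of an edge with both labels `(true, true)` and `(false, true)` -/
def le2 (x y : Bool × Bool) : ZMod 2 := lp x * lr y + lr x * lp y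
/-- two labels are compatible if they are not of the same kind with opposite signs -/
def Compat (x y : Bool × Bool) : Prop := ¬ (x.1 = y.1 ∧ x.2 ≠ y.2)

instance (x y : Bool × Bool) : Decidable (Compat x y) := by unfold Compat; infer_instance

lemma tri_zero : ∀ x y z : Bool × Bool, Compat x y → Compat y z → Compat x z →
    le2 x y + le2 y z + le2 x z = 0 := by decide

lemma left_edge : ∀ x y : Bool × Bool, Compat x y → x ≠ (true, false) → y ≠ (true, false) →
    le2 x y = lr x + lr y := by decide

lemma top_edge : ∀ x y : Bool × Bool, Compat x y → x ≠ (false, false) → y ≠ (false, false) →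
    le2 x y = lp x + lp y := by decide

lemma right_edge : ∀ x y : Bool × Bool, x ≠ (true, true) → y ≠ (true, true) →
    le2 x y = 0 := by decide

lemma bot_edge : ∀ x y : Bool × Bool, x ≠ (false, true) → y ≠ (false, true) →
    le2 x y = 0 := by decide

lemma lr_zero : ∀ x : Bool × Bool, x ≠ (false, true) → lr x = 0 := by decide
lemma lp_zero : ∀ x : Bool × Bool, x ≠ (true, true) → lp x = 0 := by decide
lemma corner : ∀ x : Bool × Bool, x ≠ (true, false) → x ≠ (false, false) → lr x + lp x = 1 := by
  decide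

lemma two_zero (x : ZMod 2) : x + x = 0 := CharTwo.add_self_eq_zero x

lemma telescope (a : ℕ → ZMod 2) (m : ℕ) :
    ∑ j ∈ Finset.range m, (a j + a (j + 1)) = a 0 + a m := by
  induction m with
  | zero => simp [two_zero]
  | succ k ih =>
    rw [Finset.sum_range_succ, ih]
    have := two_zero (a k)
    linear_combination this

theorem label_false (m : ℕ) (L : ℕ → ℕ → Bool × Bool)
    (hh : ∀ i j, i ≤ m → j < m → Compat (L i j) (L i (j+1)))
    (hv : ∀ i j, i < m → j ≤ m → Compat (L i j) (L (i+1) j))
    (hd : ∀ i j, i < m → j < m → Compat (L i j) (L (i+1) (j+1)))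
    (left : ∀ i ≤ m, L i 0 ≠ (true, false))
    (right : ∀ i ≤ m, L i m ≠ (true, true))
    (top : ∀ j ≤ m, L 0 j ≠ (false, false))
    (bot : ∀ j ≤ m, L m j ≠ (false, true)) : False := by
  set H : ℕ → ZMod 2 := fun i => ∑ j ∈ Finset.range m, le2 (L i j) (L i (j+1)) with hH
  have hrow : ∀ i, i < m → H i + H (i+1) = le2 (L i 0) (L (i+1) 0) := by
    intro i hi
    have h1 : H i + H (i+1) =
        ∑ j ∈ Finset.range m, (le2 (L i j) (L (i+1) j) + le2 (L i (j+1)) (L (i+1) (j+1))) := by
      rw [hH]
      simp only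
      rw [← Finset.sum_add_distrib]
      apply Finset.sum_congr rfl
      intro j hj
      have hj' : j < m := Finset.mem_range.mp hj
      have t1 := tri_zero (L i j) (L i (j+1)) (L (i+1) (j+1)) (hh i j hi.le hj')
        (hv i (j+1) hi hj') (hd i j hi hj')
      have t2 := tri_zero (L i j) (L (i+1) j) (L (i+1) (j+1)) (hv i j hi hj'.le)
        (hh (i+1) j hi hj') (hd i j hi hj')
      have t3 := two_zero (le2 (L i j) (L (i+1) (j+1)))
      have t4 := two_zero (le2 (L i (j+1)) (L (i+1) (j+1)))
      have t5 := two_zero (le2 (L i j) (L (i+1) j))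
      linear_combination t1 + t2 - t3 - t4 - t5
    rw [h1]
    have h2 := telescope (fun j => le2 (L i j) (L (i+1) j)) m
    rw [h2, right_edge (L i m) (L (i+1) m) (right i hi.le) (right (i+1) hi), add_zero]
  have hsum : H 0 + H m = ∑ i ∈ Finset.range m, le2 (L i 0) (L (i+1) 0) := by
    rw [← telescope H m]
    apply Finset.sum_congr rfl
    intro i hi
    exact hrow i (Finset.mem_range.mp hi)
  have hleft : ∑ i ∈ Finset.range m, le2 (L i 0) (L (i+1) 0) = lr (L 0 0) := by
    have : ∑ i ∈ Finset.range m, le2 (L i 0) (L (i+1) 0) =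
        ∑ i ∈ Finset.range m, (lr (L i 0) + lr (L (i+1) 0)) := by
      apply Finset.sum_congr rfl
      intro i hi
      have hi' : i < m := Finset.mem_range.mp hi
      exact left_edge _ _ (hv i 0 hi' (Nat.zero_le _)) (left i hi'.le) (left (i+1) hi')
    rw [this, telescope (fun i => lr (L i 0)) m]
    rw [lr_zero (L m 0) (bot 0 (Nat.zero_le _)), add_zero]
  have htop : H 0 = lp (L 0 0) := by
    have : H 0 = ∑ j ∈ Finset.range m, (lp (L 0 j) + lp (L 0 (j+1))) := by
      rw [hH]
      apply Finset.sum_congr rfl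
      intro j hj
      have hj' : j < m := Finset.mem_range.mp hj
      exact top_edge _ _ (hh 0 j (Nat.zero_le _) hj') (top j hj'.le) (top (j+1) hj')
    rw [this, telescope (fun j => lp (L 0 j)) m]
    rw [lp_zero (L 0 m) (right 0 (Nat.zero_le _)), add_zero]
  have hbot : H m = 0 := by
    rw [hH]
    apply Finset.sum_eq_zero
    intro j hj
    have hj' : j < m := Finset.mem_range.mp hj
    exact bot_edge _ _ (bot j hj'.le) (bot (j+1) hj')
  rw [hleft, htop, hbot, add_zero] at hsum
  have hc := corner (L 0 0) (left 0 (Nat.zero_le _)) (top 0 (Nat.zero_le _))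
  rw [← hsum, two_zero] at hc
  exact absurd hc (by decide)

/-- the (oriented) edges of the triangulated grid -/
def T (x y : ℕ × ℕ) : Prop :=
  (x.1 = y.1 ∧ x.2 + 1 = y.2) ∨ (x.1 + 1 = y.1 ∧ x.2 = y.2) ∨ (x.1 + 1 = y.1 ∧ x.2 + 1 = y.2)

/-- monochromatic subgraph of the `n × n` triangulated grid coloured by `f` -/
def monoGrid (n : ℕ) (f : Fin n × Fin n → Bool) : SimpleGraph (Fin n × Fin n) where
  Adj x y := (T (x.1, x.2) (y.1, y.2) ∨ T (y.1, y.2) (x.1, x.2)) ∧ f x = f y
  symm := ⟨fun x y h => ⟨h.1.symm, h.2.symm⟩⟩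
  loopless := ⟨fun x h => by
    rcases h.1 with h | h <;> rcases h with h | h | h <;> simp at h⟩

lemma same_color {n : ℕ} {f : Fin n × Fin n → Bool} {x y : Fin n × Fin n}
    (h : (monoGrid n f).Reachable x y) : f x = f y := by
  rw [SimpleGraph.reachable_iff_reflTransGen] at h
  induction h with
  | refl => rfl
  | tail _ h2 ih => exact ih.trans h2.2

/-- discrete intermediate value: a coordinate that changes by at most one along edges takes all
intermediate values on a component -/
lemma ivt {V : Type} {G : SimpleGraph V} (g : V → ℕ) (hg : ∀ x y, G.Adj x y → g y ≤ g x + 1)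
    {x y : V} (h : G.Reachable x y) (k : ℕ) (hx : g x ≤ k) (hy : k ≤ g y) :
    ∃ z, G.Reachable x z ∧ g z = k := by
  by_contra hcon
  push Not at hcon
  have key : ∀ z, G.Reachable x z → g z < k := by
    intro z hz
    have hz' := hz
    rw [SimpleGraph.reachable_iff_reflTransGen] at hz
    induction hz with
    | refl => exact lt_of_le_of_ne hx (hcon x (SimpleGraph.Reachable.refl x))
    | @tail b c hb hbc ih =>
      have hb' : G.Reachable x b := (SimpleGraph.reachable_iff_reflTransGen x b).mpr hb
      have h1 := ih hb'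
      have h2 := hg b c hbc
      have h3 := hcon c hz'
      omega
  have := key y h
  omega

lemma card_of_span {n : ℕ} {V : Type} [Finite V] {G : SimpleGraph V} (g : V → ℕ)
    (hg : ∀ x y, G.Adj x y → g y ≤ g x + 1)
    {v x y : V} (h1 : G.Reachable v x) (h2 : G.Reachable v y) (hx : g x = 0) (hy : g y + 1 = n) :
    n ≤ Set.ncard {u | G.Reachable v u} := by
  have hxy : G.Reachable x y := h1.symm.trans h2
  have key : ∀ k : Fin n, ∃ z, G.Reachable x z ∧ g z = k := by
    intro k
    have := k.2
    exact ivt g hg hxy k (by omega) (by omega)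
  choose z hz1 hz2 using key
  have hinj : Function.Injective z := by
    intro a b hab
    have := hz2 a
    rw [hab, hz2 b] at this
    exact Fin.ext this.symm
  have hsub : Set.range z ⊆ {u | G.Reachable v u} := by
    rintro _ ⟨k, rfl⟩
    exact h1.trans (hz1 k)
  calc n = Nat.card (Fin n) := by simp
    _ = Set.ncard (Set.range z) := by
      rw [← Set.image_univ, Set.ncard_image_of_injective _ hinj, Set.ncard_univ]
    _ ≤ _ := Set.ncard_le_ncard hsub (Set.toFinite _)

open Classical in
/-- Hex lemma: each 2-colouring of the triangulated `n × n` grid has a monochromatic component with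
at least `n` vertices. -/
theorem hex (n : ℕ) (hn : 0 < n) (f : Fin n × Fin n → Bool) :
    ∃ v, n ≤ Set.ncard {u | (monoGrid n f).Reachable v u} := by
  by_contra hcon
  push Not at hcon
  obtain ⟨m, rfl⟩ : ∃ m, n = m + 1 := ⟨n - 1, by omega⟩
  -- embedding of ℕ × ℕ
  let e : ℕ → Fin (m+1) := fun i => ⟨min i m, by omega⟩
  have he : ∀ i, i ≤ m → ((e i : Fin (m+1)) : ℕ) = i := fun i hi => by simp [e, hi]
  let touchL : Fin (m+1) × Fin (m+1) → Prop := fun v => ∃ u, (monoGrid (m+1) f).Reachable v u ∧
    (u.2 : ℕ) = 0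
  let touchT : Fin (m+1) × Fin (m+1) → Prop := fun v => ∃ u, (monoGrid (m+1) f).Reachable v u ∧
    (u.1 : ℕ) = 0
  let lab : Fin (m+1) × Fin (m+1) → Bool × Bool := fun v =>
    (f v, if f v = true then decide (touchL v) else decide (touchT v))
  have hcompat : ∀ x y : Fin (m+1) × Fin (m+1),
      T (x.1, x.2) (y.1, y.2) → Compat (lab x) (lab y) := by
    rintro x y hT ⟨h1, h2⟩
    have h1' : f x = f y := h1
    have hadj : (monoGrid (m+1) f).Adj x y := ⟨Or.inl hT, h1'⟩
    have e1 : touchL x ↔ touchL y := by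
      constructor
      · rintro ⟨u, hu, hu'⟩
        exact ⟨u, hadj.symm.reachable.trans hu, hu'⟩
      · rintro ⟨u, hu, hu'⟩
        exact ⟨u, hadj.reachable.trans hu, hu'⟩
    have e2 : touchT x ↔ touchT y := by
      constructor
      · rintro ⟨u, hu, hu'⟩
        exact ⟨u, hadj.symm.reachable.trans hu, hu'⟩
      · rintro ⟨u, hu, hu'⟩
        exact ⟨u, hadj.reachable.trans hu, hu'⟩
    apply h2
    simp only [lab, h1', e1, e2]
  have hgcol : ∀ x y : Fin (m+1) × Fin (m+1), (monoGrid (m+1) f).Adj x y →
      (y.2 : ℕ) ≤ (x.2 : ℕ) + 1 := by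
    rintro x y ⟨h, -⟩
    simp only [T] at h
    omega
  have hgrow : ∀ x y : Fin (m+1) × Fin (m+1), (monoGrid (m+1) f).Adj x y →
      (y.1 : ℕ) ≤ (x.1 : ℕ) + 1 := by
    rintro x y ⟨h, -⟩
    simp only [T] at h
    omega
  refine label_false m (fun i j => lab (e i, e j)) ?_ ?_ ?_ ?_ ?_ ?_ ?_
  · intro i j hi hj
    apply hcompat
    simp only [T, he i hi, he j hj.le, he (j+1) hj]
    left; exact ⟨trivial, trivial⟩
  · intro i j hi hj
    apply hcompat
    simp only [T, he i hi.le, he j hj, he (i+1) hi]
    right; left; exact ⟨trivial, trivial⟩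
  · intro i j hi hj
    apply hcompat
    simp only [T, he i hi.le, he j hj.le, he (i+1) hi, he (j+1) hj]
    right; right; exact ⟨trivial, trivial⟩
  · intro i hi h
    simp only [lab, Prod.mk.injEq] at h
    obtain ⟨h1, h2⟩ := h
    rw [if_pos h1] at h2
    apply of_decide_eq_false h2
    exact ⟨_, SimpleGraph.Reachable.refl _, he 0 (Nat.zero_le _)⟩
  · intro i hi h
    simp only [lab, Prod.mk.injEq] at h
    obtain ⟨h1, h2⟩ := h
    rw [if_pos h1] at h2
    obtain ⟨u, hu, hu'⟩ := of_decide_eq_true h2
    have := card_of_span (n := m+1) (fun x : Fin (m+1) × Fin (m+1) => (x.2 : ℕ)) hgcol hu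
      (SimpleGraph.Reachable.refl _) hu' (by simp [he m le_rfl])
    exact absurd this (not_le.mpr (hcon _))
  · intro j hj h
    simp only [lab, Prod.mk.injEq] at h
    obtain ⟨h1, h2⟩ := h
    rw [if_neg (by rw [h1]; simp)] at h2
    apply of_decide_eq_false h2
    exact ⟨_, SimpleGraph.Reachable.refl _, he 0 (Nat.zero_le _)⟩
  · intro j hj h
    simp only [lab, Prod.mk.injEq] at h
    obtain ⟨h1, h2⟩ := h
    rw [if_neg (by rw [h1]; simp)] at h2
    obtain ⟨u, hu, hu'⟩ := of_decide_eq_true h2
    have := card_of_span (n := m+1) (fun x : Fin (m+1) × Fin (m+1) => (x.1 : ℕ)) hgrow hu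
      (SimpleGraph.Reachable.refl _) hu' (by simp [he m le_rfl])
    exact absurd this (not_le.mpr (hcon _))

end Pool.Agent.Lib_helper92.Hex
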