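import Mathlib

/-!
A rank function on scattered spaces, and the points generated by a set of functions.
-/

set_option autoImplicit false

namespace Pool.Agent.Lib_helper92.CpK

open Set Topology

/-- the points all of whose neighbours (in a suitable neighbourhood) are in `S` -/
def gam (L : Type) [TopologicalSpace L] : Set L →o Set L where
  toFun S := {z | ∃ O : Set L, IsOpen O ∧ z ∈ O ∧ ∀ z' ∈ O, z' ≠ z → z' ∈ S}
  monotone' := by
    rintro S T hST z ⟨O, h1, h2, h3⟩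
    exact ⟨O, h1, h2, fun z' hz' hne => hST (h3 z' hz' hne)⟩

theorem exists_rank {L : Type} [TopologicalSpace L]
    (hscat : ∀ S : Set L, S.Nonempty → ∃ x ∈ S, ∃ U : Set L, IsOpen U ∧ U ∩ S = {x}) :
    ∃ rk : L → Ordinal.{0}, ∀ z, ∃ O : Set L, IsOpen O ∧ z ∈ O ∧
      ∀ z' ∈ O, z' ≠ z → rk z' < rk z := by
  have hfix : (gam L).lfp = Set.univ := by
    by_contra hcon
    have hne : ((gam L).lfp)ᶜ.Nonempty := by
      rw [Set.nonempty_compl]; exact hcon
    obtain ⟨x, hx, U, hU, hUx⟩ := hscat _ hne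
    apply hx
    have h1 : x ∈ gam L (gam L).lfp := by
      refine ⟨U, hU, ?_, ?_⟩
      · have : x ∈ U ∩ ((gam L).lfp)ᶜ := by rw [hUx]; exact rfl
        exact this.1
      · intro z' hz' hne
        by_contra h
        have : z' ∈ U ∩ ((gam L).lfp)ᶜ := ⟨hz', h⟩
        rw [hUx] at this
        exact hne this
    rw [(gam L).map_lfp] at h1
    exact h1
  obtain ⟨a, ha⟩ := OrdinalApprox.lfp_mem_range_lfpApprox (gam L)
  have hex : ∀ z, ∃ b : Ordinal.{0}, z ∈ OrdinalApprox.lfpApprox (gam L) ⊥ b := by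
    intro z
    refine ⟨a, ?_⟩
    rw [ha, hfix]; trivial
  let rk : L → Ordinal.{0} := fun z => sInf {b | z ∈ OrdinalApprox.lfpApprox (gam L) ⊥ b}
  have hrk : ∀ z, z ∈ OrdinalApprox.lfpApprox (gam L) ⊥ (rk z) := fun z => csInf_mem (hex z)
  refine ⟨rk, fun z => ?_⟩
  have h1 := hrk z
  unfold OrdinalApprox.lfpApprox at h1
  rw [bot_sup_eq] at h1
  simp only [Set.iSup_eq_iUnion, Set.mem_iUnion] at h1
  obtain ⟨b, hb, O, hO, hzO, hO'⟩ := h1
  refine ⟨O, hO, hzO, fun z' hz' hne => ?_⟩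
  have h2 : z' ∈ OrdinalApprox.lfpApprox (gam L) ⊥ b := hO' z' hz' hne
  exact lt_of_le_of_lt (csInf_le' h2) hb

end Pool.Agent.Lib_helper92.CpK
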