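import Mathlib
import Pool.Agent.Lib_helper92.ScatRank

/-!
Compact sets of functions on a Lindelöf scattered space: the points generated by a set of
functions, and the associated retractions.
-/

set_option autoImplicit false

namespace Pool.Agent.Lib_helper92.CpK

open Set Topology

/-- A space `Q` of continuous functions on a Lindelöf scattered space `L`, together with chosen
small closed neighbourhoods `W z` and countable subcovers of closed sets. -/
structure Sys (L Q : Type) [TopologicalSpace L] [TopologicalSpace Q] where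
  /-- evaluation -/
  ev : Q → L → ℝ
  ev_cont : Continuous ev
  ev_inj : Function.Injective ev
  ev_cont' : ∀ q, Continuous (ev q)
  /-- rank -/
  rk : L → Ordinal.{0}
  /-- closed neighbourhoods -/
  W : L → Set L
  W_closed : ∀ z, IsClosed (W z)
  W_rk : ∀ z, ∀ z' ∈ W z, z' ≠ z → rk z' < rk z
  /-- centers of a countable cover -/
  cov : Set L → ℕ → L
  cov_cover : ∀ F, IsClosed F → ∀ x ∈ F, ∃ n, x ∈ W (cov F n)
  cov_mem : ∀ F, IsClosed F → F.Nonempty → ∀ n, cov F n ∈ F

theorem exists_sys {L Q : Type} [TopologicalSpace L] [TopologicalSpace Q] [RegularSpace L]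
    [LindelofSpace L] [Nonempty L]
    (hscat : ∀ S : Set L, S.Nonempty → ∃ x ∈ S, ∃ U : Set L, IsOpen U ∧ U ∩ S = {x})
    (ev : Q → L → ℝ) (ev_cont : Continuous ev) (ev_inj : Function.Injective ev)
    (ev_cont' : ∀ q, Continuous (ev q)) : ∃ S : Sys L Q, S.ev = ev := by
  obtain ⟨rk, hrk⟩ := exists_rank hscat
  choose O hO1 hO2 hO3 using hrk
  have hW : ∀ z, ∃ W : Set L, W ∈ 𝓝 z ∧ IsClosed W ∧ W ⊆ O z := fun z =>
    exists_mem_nhds_isClosed_subset ((hO1 z).mem_nhds (hO2 z))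
  choose W hW1 hW2 hW3 using hW
  have hcov : ∀ F : Set L, ∃ s : ℕ → L, IsClosed F →
      (∀ x ∈ F, ∃ n, x ∈ W (s n)) ∧ (F.Nonempty → ∀ n, s n ∈ F) := by
    intro F
    by_cases hF : IsClosed F
    · by_cases hne : F.Nonempty
      · have hL : IsLindelof F := hF.isLindelof
        obtain ⟨t, ht1, ht2, ht3⟩ := hL.elim_nhds_subcover W (fun x _ => hW1 x)
        have htne : t.Nonempty := by
          obtain ⟨x, hx⟩ := hne
          have := ht3 hx
          rw [Set.mem_iUnion₂] at this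
          obtain ⟨y, hy, -⟩ := this
          exact ⟨y, hy⟩
        obtain ⟨s, hs⟩ := ht1.exists_eq_range htne
        refine ⟨s, fun _ => ⟨?_, ?_⟩⟩
        · intro x hx
          have := ht3 hx
          rw [Set.mem_iUnion₂] at this
          obtain ⟨y, hy, hxy⟩ := this
          rw [hs] at hy
          obtain ⟨n, rfl⟩ := hy
          exact ⟨n, hxy⟩
        · intro _ n
          apply ht2
          rw [hs]
          exact ⟨n, rfl⟩
      · refine ⟨fun _ => Classical.arbitrary L, fun _ => ⟨?_, fun h => absurd h hne⟩⟩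
        intro x hx
        exact absurd ⟨x, hx⟩ hne
    · exact ⟨fun _ => Classical.arbitrary L, fun h => absurd h hF⟩
  choose cov hcov using hcov
  refine ⟨⟨ev, ev_cont, ev_inj, ev_cont', rk, W, hW2, ?_, cov, fun F hF => (hcov F hF).1,
    fun F hF => (hcov F hF).2⟩, rfl⟩
  intro z z' hz' hne
  exact hO3 z z' (hW3 z hz') hne

namespace Sys

variable {L Q : Type} [TopologicalSpace L] [TopologicalSpace Q] (S : Sys L Q)

/-- the closed set coded by a list -/
def Fl : List (ℕ × Q × ℕ) → Set L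
  | [] => Set.univ
  | (t :: l) => S.W (S.cov (Fl l) t.1) ∩ Fl l ∩
      {z | 1 / ((t.2.2 : ℝ) + 1) ≤ |S.ev t.2.1 z - S.ev t.2.1 (S.cov (Fl l) t.1)|}

lemma Fl_closed (l : List (ℕ × Q × ℕ)) : IsClosed (S.Fl l) := by
  induction l with
  | nil => exact isClosed_univ
  | cons t l ih =>
    refine ((S.W_closed _).inter ih).inter ?_
    apply isClosed_le continuous_const
    exact ((S.ev_cont' t.2.1).sub continuous_const).abs

/-- the points generated by a set of functions -/
def pts (A : Set Q) : Set L :=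
  {y | ∃ (n : ℕ) (l : List (ℕ × Q × ℕ)), (∀ t ∈ l, t.2.1 ∈ A) ∧ y = S.cov (S.Fl l) n}

lemma pts_mono {A B : Set Q} (h : A ⊆ B) : S.pts A ⊆ S.pts B := by
  rintro y ⟨n, l, hl, rfl⟩
  exact ⟨n, l, fun t ht => h (hl t ht), rfl⟩

lemma pts_countable {A : Set Q} (h : A.Countable) : (S.pts A).Countable := by
  have := h.to_subtype
  have hsub : S.pts A ⊆ Set.range (fun p : ℕ × List (ℕ × A × ℕ) =>
      S.cov (S.Fl (p.2.map (fun t => (t.1, (t.2.1 : Q), t.2.2)))) p.1) := by
    rintro y ⟨n, l, hl, rfl⟩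
    refine ⟨(n, l.attach.map (fun t => (t.1.1, ⟨t.1.2.1, hl t.1 t.2⟩, t.1.2.2))), ?_⟩
    simp only [List.map_map]
    congr 2
    conv_rhs => rw [← List.attach_map_subtype_val l]
    rfl
  exact (Set.countable_range _).mono hsub

lemma pts_finitary {A : Set Q} {y : L} (hy : y ∈ S.pts A) :
    ∃ a : Finset Q, (a : Set Q) ⊆ A ∧ y ∈ S.pts a := by
  classical
  obtain ⟨n, l, hl, rfl⟩ := hy
  refine ⟨(l.map (fun t => t.2.1)).toFinset, ?_, n, l, ?_, rfl⟩
  · intro q hq
    rw [Finset.mem_coe, List.mem_toFinset, List.mem_map] at hq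
    obtain ⟨t, ht, rfl⟩ := hq
    exact hl t ht
  · intro t ht
    rw [Finset.mem_coe, List.mem_toFinset, List.mem_map]
    exact ⟨t, ht, rfl⟩

/-- each point of `L` agrees on `A` with a point generated by `A` -/
theorem exists_pt (A : Set Q) (x : L) : ∃ y ∈ S.pts A, ∀ a ∈ A, S.ev a x = S.ev a y := by
  -- the set of candidates
  let C : Set L := {y | ∃ (n : ℕ) (l : List (ℕ × Q × ℕ)), (∀ t ∈ l, t.2.1 ∈ A) ∧
    x ∈ S.Fl l ∧ x ∈ S.W y ∧ y = S.cov (S.Fl l) n}
  have hC : C.Nonempty := by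
    obtain ⟨n, hn⟩ := S.cov_cover Set.univ isClosed_univ x trivial
    exact ⟨_, n, [], by simp, trivial, hn, rfl⟩
  obtain ⟨p, hpC, hpmin⟩ := (InvImage.wf S.rk Ordinal.lt_wf).has_min C hC
  obtain ⟨n, l, hl, hxF, hxW, rfl⟩ := hpC
  refine ⟨_, ⟨n, l, hl, rfl⟩, ?_⟩
  intro a ha
  by_contra hne
  set p := S.cov (S.Fl l) n with hp
  have hpos : 0 < |S.ev a x - S.ev a p| := abs_pos.mpr (sub_ne_zero.mpr hne)
  obtain ⟨k, hk⟩ := exists_nat_one_div_lt hpos
  have hxF' : x ∈ S.Fl ((n, a, k) :: l) := ⟨⟨hxW, hxF⟩, hk.le⟩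
  obtain ⟨n', hn'⟩ := S.cov_cover _ (S.Fl_closed _) x hxF'
  have hmem := S.cov_mem _ (S.Fl_closed _) ⟨x, hxF'⟩ n'
  set p' := S.cov (S.Fl ((n, a, k) :: l)) n' with hp'
  have hp'W : p' ∈ S.W p := hmem.1.1
  have hp'ne : p' ≠ p := by
    intro h
    have h1 : 1 / ((k : ℝ) + 1) ≤ |S.ev a p' - S.ev a p| := hmem.2
    rw [h, sub_self, abs_zero] at h1
    have h2 : (0 : ℝ) < 1 / ((k : ℝ) + 1) := by positivity
    linarith
  refine hpmin p' ⟨n', (n, a, k) :: l, ?_, hxF', hn', rfl⟩ (S.W_rk p p' hp'W hp'ne)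
  intro t ht
  rw [List.mem_cons] at ht
  rcases ht with rfl | ht
  · exact ha
  · exact hl t ht

end Sys

end Pool.Agent.Lib_helper92.CpK
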