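import Mathlib

/-!
Trees given by a parent function, and connectedness of parent-closed subsets.
-/

set_option autoImplicit false

namespace Pool.Agent.Lib_helper92.ParTree

/-- the graph in which each vertex `x ≠ r` is joined to its parent `par x` -/
def parGraph {ι : Type} (r : ι) (par : ι → ι) : SimpleGraph ι where
  Adj x y := x ≠ y ∧ ((x ≠ r ∧ par x = y) ∨ (y ≠ r ∧ par y = x))
  symm := ⟨fun _ _ h => ⟨h.1.symm, h.2.symm⟩⟩
  loopless := ⟨fun _ h => h.1 rfl⟩

variable {ι : Type} {r : ι} {par : ι → ι} (rk : ι → ℕ) (h : ∀ x, x ≠ r → rk (par x) < rk x)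

include h in
lemma adj_par {x : ι} (hx : x ≠ r) : (parGraph r par).Adj x (par x) := by
  refine ⟨?_, Or.inl ⟨hx, rfl⟩⟩
  intro hcon
  have := h x hx
  rw [← hcon] at this
  exact lt_irrefl _ this

include h in
/-- a set containing `t` and the parents of all its other members is connected -/
lemma induce_connected {S : Set ι} {t : ι} (ht : t ∈ S)
    (hS : ∀ x ∈ S, x ≠ t → x ≠ r ∧ par x ∈ S) : ((parGraph r par).induce S).Connected := by
  have key : ∀ k : ℕ, ∀ x : ι, ∀ hx : x ∈ S, rk x ≤ k →
      ((parGraph r par).induce S).Reachable ⟨x, hx⟩ ⟨t, ht⟩ := by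
    intro k
    induction k with
    | zero =>
      intro x hx hk
      by_cases hxt : x = t
      · subst hxt; exact SimpleGraph.Reachable.refl _
      · have h1 := (hS x hx hxt).1
        have h2 := h x h1
        omega
    | succ k ih =>
      intro x hx hk
      by_cases hxt : x = t
      · subst hxt; exact SimpleGraph.Reachable.refl _
      · have h1 := hS x hx hxt
        have h2 := h x h1.1
        have h3 := ih (par x) h1.2 (by omega)
        refine SimpleGraph.Reachable.trans ?_ h3
        apply SimpleGraph.Adj.reachable
        exact adj_par rk h h1.1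
  have : Nonempty S := ⟨⟨t, ht⟩⟩
  refine SimpleGraph.Connected.mk ?_
  rintro ⟨x, hx⟩ ⟨y, hy⟩
  exact (key _ x hx le_rfl).trans (key _ y hy le_rfl).symm

include h in
theorem isTree [Finite ι] : (parGraph r par).IsTree := by
  rw [SimpleGraph.isTree_iff_connected_and_card]
  constructor
  · have h1 := induce_connected rk h (S := Set.univ) (t := r) (Set.mem_univ _)
      (fun x _ hx => ⟨hx, Set.mem_univ _⟩)
    exact (SimpleGraph.induceUnivIso (parGraph r par)).connected_iff.mp h1
  · -- bijection between the non-root vertices and the edges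
    let F : {x : ι // x ≠ r} → (parGraph r par).edgeSet := fun x =>
      ⟨s(x.1, par x.1), (adj_par rk h x.2)⟩
    have hF : Function.Bijective F := by
      constructor
      · rintro ⟨x, hx⟩ ⟨y, hy⟩ hxy
        have hxy' : s(x, par x) = s(y, par y) := congrArg Subtype.val hxy
        rw [Sym2.eq_iff] at hxy'
        rcases hxy' with ⟨h1, -⟩ | ⟨h1, h2⟩
        · exact Subtype.ext h1
        · exfalso
          have a1 := h x hx
          have a2 := h y hy
          rw [h2] at a1
          rw [← h1] at a2
          omega
      · rintro ⟨e, he⟩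
        induction e using Sym2.ind with
        | _ x y =>
          rw [SimpleGraph.mem_edgeSet] at he
          rcases he.2 with ⟨h1, h2⟩ | ⟨h1, h2⟩
          · refine ⟨⟨x, h1⟩, Subtype.ext ?_⟩
            change s(x, par x) = s(x, y)
            rw [h2]
          · refine ⟨⟨y, h1⟩, Subtype.ext ?_⟩
            change s(y, par y) = s(x, y)
            rw [h2, Sym2.eq_swap]
    rw [← Nat.card_congr (Equiv.ofBijective F hF)]
    have := Fintype.ofFinite ι
    classical
    rw [Nat.card_eq_fintype_card, Nat.card_eq_fintype_card]
    have h2 := Fintype.card_subtype_compl (fun x : ι => x = r)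
    have h3 : Fintype.card {x : ι // x ≠ r} = Fintype.card {x : ι // ¬ x = r} := rfl
    rw [h3, h2]
    have h4 : Fintype.card {x : ι // x = r} = 1 := by simp
    rw [h4]
    have h5 : 0 < Fintype.card ι := Fintype.card_pos_iff.mpr ⟨r⟩
    omega

end Pool.Agent.Lib_helper92.ParTree
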