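import Mathlib
import Pool.Agent.Lib_helper92.Hex
import Pool.Agent.Lib_helper92.ParTree

/-!
A family of `K_{2,21}`-free graphs of layered treewidth at most 3 without 3-colourings of bounded
clustering.

Let `c` be the clustering bound and `n = c + 1`.  Letters are triples (row, strip, column).
Vertices are words over these letters (the empty word is an isolated vertex).  A word `w` is also a
node: at the node `w` there are `M > n * c` disjoint triangulated `n × n` grids (the strips), with
vertices `(i, q, j) :: w`.  The vertices in row `i` of the strips at `w` are all joined to the boss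
of row `i` at `w`, which is the longest suffix of `w` whose head lies in row `i` (if there is one).

* layers: the rows; each bag contains the bosses at `w` and two consecutive columns of one strip,
  hence at most 3 vertices of each layer;
* each vertex has one boss and at most 8 grid neighbours, hence there is no `K_{2,21}`;
* colouring: a boss has at most `c` neighbours of its colour, so at each node some strip has no
  vertex with the colour of its boss; a row of `c + 1` vertices is not monochromatic, so if the boss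
  of a row does not have colour `0`, then that row of the strip has a vertex of colour `0`, and we
  may pass to the node where this vertex is the new boss of that row.  After at most `2 n` steps
  all bosses have colour `0`, some strip is 2-coloured, and the Hex lemma gives a monochromatic
  component with at least `c + 1` vertices.
-/

set_option autoImplicit false

namespace Pool.Agent.Lib_helper92.LTW

open Pool.Agent.Lib_helper92.Hex Pool.Agent.Lib_helper92.ParTree

/-- letters: row, strip, column -/
abbrev Lt (n M : ℕ) := Fin n × Fin M × Fin n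

variable {n M N : ℕ}

/-- the boss of row `i` at the node `w` -/
def boss : List (Lt n M) → Fin n → Option (List (Lt n M))
  | [], _ => none
  | (x :: w), i => if x.1 = i then some (x :: w) else boss w i

lemma boss_length : ∀ (w : List (Lt n M)) (i : Fin n) (v : List (Lt n M)),
    boss w i = some v → v.length ≤ w.length := by
  intro w
  induction w with
  | nil => intro i v h; simp [boss] at h
  | cons x w ih =>
    intro i v h
    simp only [boss] at h
    split_ifs at h with h1
    · simp only [Option.some.injEq] at h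
      rw [← h]
    · have := ih i v h
      simp only [List.length_cons]
      omega

lemma boss_row : ∀ (w : List (Lt n M)) (i : Fin n) (v : List (Lt n M)),
    boss w i = some v → ∃ x u, v = x :: u ∧ x.1 = i := by
  intro w
  induction w with
  | nil => intro i v h; simp [boss] at h
  | cons x w ih =>
    intro i v h
    simp only [boss] at h
    split_ifs at h with h1
    · simp only [Option.some.injEq] at h
      exact ⟨x, w, h.symm, h1⟩
    · exact ih i v h

/-- vertices: words of length at most `N` -/
abbrev Vx (n M N : ℕ) := {l : List (Lt n M) // l.length ≤ N}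

instance : Finite (Vx n M N) := List.finite_length_le (Lt n M) N

/-- adjacency inside a strip -/
def gridRel (u v : List (Lt n M)) : Prop :=
  ∃ (w : List (Lt n M)) (q : Fin M) (i j k l : Fin n),
    u = (i, q, j) :: w ∧ v = (k, q, l) :: w ∧ T ((i : ℕ), (j : ℕ)) ((k : ℕ), (l : ℕ))

/-- `v` is the boss of `u` -/
def bossRel (u v : List (Lt n M)) : Prop :=
  ∃ (x : Lt n M) (w : List (Lt n M)), u = x :: w ∧ boss w x.1 = some v

/-- the graph -/
def G (n M N : ℕ) : SimpleGraph (Vx n M N) :=
  SimpleGraph.fromRel (fun u v => gridRel u.1 v.1 ∨ bossRel u.1 v.1)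

/-- the layer (row) of a vertex -/
def lay : List (Lt n M) → ℕ
  | [] => 0
  | (x :: _) => x.1.val

lemma lay_boss (w : List (Lt n M)) (i : Fin n) (v : List (Lt n M)) (h : boss w i = some v) :
    lay v = i.val := by
  obtain ⟨x, u, rfl, hx⟩ := boss_row w i v h
  simp [lay, hx]

lemma lay_rel {u v : List (Lt n M)} (h : gridRel u v ∨ bossRel u v) :
    lay u ≤ lay v + 1 ∧ lay v ≤ lay u + 1 := by
  rcases h with ⟨w, q, i, j, k, l, rfl, rfl, h⟩ | ⟨x, w, rfl, h⟩
  · simp only [T] at h
    simp only [lay]
    omega
  · have := lay_boss w x.1 v h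
    change x.1.val ≤ lay v + 1 ∧ lay v ≤ x.1.val + 1
    omega

/-! ### tree decomposition -/

/-- the parent of an index of the tree decomposition -/
def parL (hn : 0 < n) : List (Lt n M) → List (Lt n M)
  | [] => []
  | (x :: w) => if x.1.val = 0 then
      (if x.2.2.val = 0 then w else (x.1, x.2.1, ⟨x.2.2.val - 1, by omega⟩) :: w)
     else (⟨0, hn⟩, x.2.1, x.2.2) :: w

/-- rank of an index -/
def rk : List (Lt n M) → ℕ
  | [] => 0
  | (x :: w) => (w.length + 1) * (n + 1) + (if x.1.val = 0 then 0 else 1) + x.2.2.val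

lemma rk_lt (w : List (Lt n M)) : rk w < (w.length + 1) * (n + 1) := by
  cases w with
  | nil => simp [rk]
  | cons x w =>
    simp only [rk, List.length_cons]
    have := x.2.2.2
    have e : (w.length + 1 + 1) * (n + 1) = (w.length + 1) * (n + 1) + (n + 1) := by ring
    split_ifs <;> omega

lemma rk_par (hn : 0 < n) (l : List (Lt n M)) (hl : l ≠ []) : rk (parL hn l) < rk l := by
  cases l with
  | nil => exact absurd rfl hl
  | cons x w =>
    simp only [parL]
    split_ifs with h1 h2
    · have h0 := rk_lt w
      change rk w < (w.length + 1) * (n + 1) + (if x.1.val = 0 then 0 else 1) + x.2.2.val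
      rw [if_pos h1]
      omega
    · simp only [rk]
      rw [if_pos h1]
      omega
    · simp only [rk]
      rw [if_neg h1, if_pos trivial]
      omega

lemma par_length (hn : 0 < n) (l : List (Lt n M)) : (parL hn l).length ≤ l.length := by
  cases l with
  | nil => simp [parL]
  | cons x w =>
    simp only [parL]
    split_ifs <;> simp

/-- the bags -/
def bagL : List (Lt n M) → Set (List (Lt n M))
  | [] => {[]}
  | (x :: w) => {v | (∃ i, boss w i = some v) ∨
      (∃ i j, v = (i, x.2.1, j) :: w ∧ (j.val = x.2.2.val ∨ j.val = x.2.2.val + 1))}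

lemma self_mem_bag (l : List (Lt n M)) : l ∈ bagL l := by
  cases l with
  | nil => simp [bagL]
  | cons x w =>
    right
    exact ⟨x.1, x.2.2, rfl, Or.inl rfl⟩

lemma rel_mem_bag {u v : List (Lt n M)} (h : gridRel u v ∨ bossRel u v) : v ∈ bagL u := by
  rcases h with ⟨w, q, i, j, k, l, rfl, rfl, h⟩ | ⟨x, w, rfl, h⟩
  · right
    simp only [T] at h
    exact ⟨k, l, rfl, by simp only; omega⟩
  · left
    exact ⟨x.1, h⟩

/-- the top index whose bag contains `v` -/
def topL (hn : 0 < n) : List (Lt n M) → List (Lt n M)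
  | [] => []
  | (x :: w) => (⟨0, hn⟩, x.2.1, ⟨x.2.2.val - 1, by omega⟩) :: w

lemma top_mem (hn : 0 < n) (v : List (Lt n M)) : v ∈ bagL (topL hn v) := by
  cases v with
  | nil => simp [topL, bagL]
  | cons x w =>
    right
    refine ⟨x.1, x.2.2, rfl, ?_⟩
    simp only
    omega

lemma top_length (hn : 0 < n) (v : List (Lt n M)) : (topL hn v).length = v.length := by
  cases v <;> simp [topL]

lemma bag_parent (hn : 0 < n) (v x : List (Lt n M)) (hx : v ∈ bagL x) (hxt : x ≠ topL hn v) :
    x ≠ [] ∧ v ∈ bagL (parL hn x) := by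
  cases x with
  | nil =>
    exfalso
    simp only [bagL, Set.mem_singleton_iff] at hx
    subst hx
    simp [topL] at hxt
  | cons x w =>
    refine ⟨by simp, ?_⟩
    rcases hx with ⟨i, hi⟩ | ⟨i, j, rfl, hj⟩
    · -- v is a boss at w
      simp only [parL]
      split_ifs with h1 h2
      · -- parent is w
        cases w with
        | nil => simp [boss] at hi
        | cons y w' =>
          simp only [boss] at hi
          split_ifs at hi with h3
          · simp only [Option.some.injEq] at hi
            rw [← hi]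
            exact self_mem_bag _
          · left
            exact ⟨i, hi⟩
      · left
        exact ⟨i, hi⟩
      · left
        exact ⟨i, hi⟩
    · simp only [parL]
      split_ifs with h1 h2
      · exfalso
        apply hxt
        simp only [topL]
        have e1 : x.1 = ⟨0, hn⟩ := Fin.ext h1
        have e2 : x.2.2 = (⟨j.val - 1, by omega⟩ : Fin n) := Fin.ext (by simp only; omega)
        rw [← e1, ← e2]
      · -- x.1 = 0, column not 0
        right
        refine ⟨i, j, rfl, ?_⟩
        simp only
        rcases hj with hj | hj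
        · omega
        · exfalso
          apply hxt
          simp only [topL]
          have e1 : x.1 = ⟨0, hn⟩ := Fin.ext h1
          have e2 : x.2.2 = (⟨j.val - 1, by omega⟩ : Fin n) := Fin.ext (by simp only; omega)
          rw [← e1, ← e2]
      · right
        exact ⟨i, j, rfl, hj⟩

lemma top_nil_or (hn : 0 < n) (v : List (Lt n M)) (hv : v ≠ []) : topL hn v ≠ [] := by
  cases v with
  | nil => exact absurd rfl hv
  | cons x w => simp [topL]

/-- parent on the index type -/
def par (hn : 0 < n) (x : Vx n M N) : Vx n M N := ⟨parL hn x.1, (par_length hn x.1).trans x.2⟩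

/-- root index -/
def root : Vx n M N := ⟨[], Nat.zero_le _⟩

lemma rk_par' (hn : 0 < n) (x : Vx n M N) (hx : x ≠ root) : rk (par hn x).1 < rk x.1 := by
  apply rk_par
  intro h
  exact hx (Subtype.ext h)

/-- the tree -/
def Tr (hn : 0 < n) (M N : ℕ) : SimpleGraph (Vx n M N) := parGraph root (par hn)

lemma Tr_isTree (hn : 0 < n) : (Tr hn M N).IsTree :=
  ParTree.isTree (fun x => rk x.1) (rk_par' hn)

/-- bags -/
def bag (x : Vx n M N) : Set (Vx n M N) := {v | v.1 ∈ bagL x.1}

lemma bag_connected (hn : 0 < n) (v : Vx n M N) :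
    ((Tr hn M N).induce {x | v ∈ bag x}).Connected := by
  have ht : (⟨topL hn v.1, by rw [top_length]; exact v.2⟩ : Vx n M N) ∈ {x | v ∈ bag x} :=
    top_mem hn v.1
  refine ParTree.induce_connected (fun x : Vx n M N => rk x.1) (rk_par' hn) ht ?_
  intro x hx hxt
  have hxt' : x.1 ≠ topL hn v.1 := fun h => hxt (Subtype.ext h)
  have := bag_parent hn v.1 x.1 hx hxt'
  exact ⟨fun h => this.1 (congrArg Subtype.val h), this.2⟩

lemma bag_layer (x : Vx n M N) (r : ℕ) :
    Set.ncard {v : Vx n M N | v ∈ bag x ∧ lay v.1 = r} ≤ 3 := by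
  obtain ⟨x, hx⟩ := x
  cases x with
  | nil =>
    have : {v : Vx n M N | v ∈ bag ⟨[], hx⟩ ∧ lay v.1 = r} ⊆ {root} := by
      rintro v ⟨hv, -⟩
      simp only [bag, bagL, Set.mem_ofPred_eq, Set.mem_singleton_iff] at hv
      exact Subtype.ext hv
    have h2 := Set.ncard_le_ncard this (Set.toFinite _)
    rw [Set.ncard_singleton] at h2
    omega
  | cons x w =>
    by_cases hr : r < n
    · set A : Set (Vx n M N) := {v | boss w ⟨r, hr⟩ = some v.1} with hA
      set B : Set (Vx n M N) := {v | v.1 = (⟨r, hr⟩, x.2.1, x.2.2) :: w} with hB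
      set C : Set (Vx n M N) := {v | ∃ j : Fin n, v.1 = (⟨r, hr⟩, x.2.1, j) :: w ∧
        j.val = x.2.2.val + 1} with hC
      have hsub : {v : Vx n M N | v ∈ bag ⟨x :: w, hx⟩ ∧ lay v.1 = r} ⊆ A ∪ (B ∪ C) := by
        rintro v ⟨hv, hl⟩
        rcases hv with ⟨i, hi⟩ | ⟨i, j, h1, h2⟩
        · left
          have := lay_boss w i v.1 hi
          have e : i = ⟨r, hr⟩ := Fin.ext (by simp only; omega)
          rw [e] at hi
          exact hi
        · right
          rw [h1] at hl
          simp only [lay] at hl
          have e : i = ⟨r, hr⟩ := Fin.ext hl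
          rw [e] at h1
          rcases h2 with h2 | h2
          · left
            have e2 : j = x.2.2 := Fin.ext h2
            rw [e2] at h1
            exact h1
          · right
            exact ⟨j, h1, h2⟩
      have hA1 : A.ncard ≤ 1 := by
        rw [Set.ncard_le_one (Set.toFinite _)]
        intro a ha b hb
        have ha' : boss w ⟨r, hr⟩ = some a.1 := ha
        have hb' : boss w ⟨r, hr⟩ = some b.1 := hb
        rw [ha'] at hb'
        exact Subtype.ext (Option.some.inj hb')
      have hB1 : B.ncard ≤ 1 := by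
        rw [Set.ncard_le_one (Set.toFinite _)]
        intro a ha b hb
        have ha' : a.1 = (⟨r, hr⟩, x.2.1, x.2.2) :: w := ha
        have hb' : b.1 = (⟨r, hr⟩, x.2.1, x.2.2) :: w := hb
        exact Subtype.ext (ha'.trans hb'.symm)
      have hC1 : C.ncard ≤ 1 := by
        rw [Set.ncard_le_one (Set.toFinite _)]
        rintro a ⟨j, ha, hj⟩ b ⟨k, hb, hk⟩
        have e : j = k := Fin.ext (by omega)
        rw [e] at ha
        exact Subtype.ext (ha.trans hb.symm)
      have h1 := Set.ncard_le_ncard hsub (Set.toFinite _)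
      have h2 := Set.ncard_union_le A (B ∪ C)
      have h3 := Set.ncard_union_le B C
      omega
    · have : {v : Vx n M N | v ∈ bag ⟨x :: w, hx⟩ ∧ lay v.1 = r} ⊆ ∅ := by
        rintro v ⟨hv, hl⟩
        exfalso
        rcases hv with ⟨i, hi⟩ | ⟨i, j, h1, h2⟩
        · have := lay_boss w i v.1 hi
          have := i.2
          omega
        · rw [h1] at hl
          simp only [lay] at hl
          have := i.2
          omega
      have h2 := Set.ncard_le_ncard this (Set.toFinite _)
      rw [Set.ncard_empty] at h2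
      omega

/-! ### no `K_{2,21}` -/

/-- row and column -/
def rc : List (Lt n M) → ℕ × ℕ
  | [] => (0, 0)
  | (x :: _) => (x.1.val, x.2.2.val)

/-- grid neighbours and the boss of `u` -/
def near (u : Vx n M N) : Set (Vx n M N) :=
  {z | gridRel u.1 z.1 ∨ gridRel z.1 u.1} ∪ {z | bossRel u.1 z.1}

lemma near_card (u : Vx n M N) : (near u).ncard ≤ 10 := by
  have h1 : {z : Vx n M N | gridRel u.1 z.1 ∨ gridRel z.1 u.1}.ncard ≤ 9 := by
    set I : Finset (ℕ × ℕ) := Finset.Icc ((rc u.1).1 - 1) ((rc u.1).1 + 1) ×ˢ
      Finset.Icc ((rc u.1).2 - 1) ((rc u.1).2 + 1) with hI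
    have hcard : (I : Set (ℕ × ℕ)).ncard ≤ 9 := by
      rw [Set.ncard_coe_finset, hI, Finset.card_product, Nat.card_Icc, Nat.card_Icc]
      have a1 : (rc u.1).1 + 1 + 1 - ((rc u.1).1 - 1) ≤ 3 := by omega
      have a2 : (rc u.1).2 + 1 + 1 - ((rc u.1).2 - 1) ≤ 3 := by omega
      calc _ ≤ 3 * 3 := Nat.mul_le_mul a1 a2
        _ = 9 := by norm_num
    refine le_trans (Set.ncard_le_ncard_of_injOn (fun z : Vx n M N => rc z.1) ?_ ?_
      (Finset.finite_toSet _)) hcard
    · intro z hz
      rw [Finset.mem_coe, hI, Finset.mem_product, Finset.mem_Icc, Finset.mem_Icc]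
      rcases hz with ⟨w, q, i, j, k, l, hu, hz, h⟩ | ⟨w, q, i, j, k, l, hz, hu, h⟩
      · simp only [hu, hz, rc]
        simp only [T] at h
        omega
      · simp only [hu, hz, rc]
        simp only [T] at h
        omega
    · intro z hz z' hz' hzz
      have key : ∀ z : Vx n M N, (gridRel u.1 z.1 ∨ gridRel z.1 u.1) →
          ∃ w q i j k l, u.1 = (i, q, j) :: w ∧ z.1 = (k, q, l) :: w := by
        intro z hz
        rcases hz with ⟨w, q, i, j, k, l, hu, hz, h⟩ | ⟨w, q, i, j, k, l, hz, hu, h⟩
        · exact ⟨w, q, i, j, k, l, hu, hz⟩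
        · exact ⟨w, q, k, l, i, j, hu, hz⟩
      obtain ⟨w, q, i, j, k, l, hu, hz1⟩ := key z hz
      obtain ⟨w', q', i', j', k', l', hu', hz1'⟩ := key z' hz'
      rw [hu] at hu'
      simp only [List.cons.injEq, Prod.mk.injEq] at hu'
      obtain ⟨⟨-, hq, -⟩, hw⟩ := hu'
      simp only [hz1, hz1', rc, Prod.mk.injEq] at hzz
      have e1 : k = k' := Fin.ext hzz.1
      have e2 : l = l' := Fin.ext hzz.2
      apply Subtype.ext
      rw [hz1, hz1', e1, e2, hq, hw]
  have h2 : {z : Vx n M N | bossRel u.1 z.1}.ncard ≤ 1 := by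
    rw [Set.ncard_le_one (Set.toFinite _)]
    rintro a ⟨x, w, hu, ha⟩ b ⟨x', w', hu', hb⟩
    rw [hu] at hu'
    simp only [List.cons.injEq] at hu'
    obtain ⟨rfl, rfl⟩ := hu'
    rw [ha] at hb
    exact Subtype.ext (Option.some.inj hb)
  have h3 := Set.ncard_union_le {z : Vx n M N | gridRel u.1 z.1 ∨ gridRel z.1 u.1}
    {z : Vx n M N | bossRel u.1 z.1}
  unfold near
  omega

lemma adj_near {u z : Vx n M N} (h : (G n M N).Adj u z) : z ∈ near u ∨ bossRel z.1 u.1 := by
  rw [G, SimpleGraph.fromRel_adj] at h
  rcases h.2 with (h | h) | (h | h)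
  · left; left; left; exact h
  · left; right; exact h
  · left; left; right; exact h
  · right; exact h

lemma no_K2 : ¬ ∃ φ : completeBipartiteGraph (Fin 2) (Fin 21) →g G n M N,
    Function.Injective φ := by
  rintro ⟨φ, hφ⟩
  set u0 := φ (Sum.inl 0) with hu0
  set u1 := φ (Sum.inl 1) with hu1
  have h01 : u0 ≠ u1 := by
    intro h
    have := hφ h
    simp at this
  have a0 : ∀ k : Fin 21, (G n M N).Adj u0 (φ (Sum.inr k)) := by
    intro k
    apply φ.map_adj
    simp
  have a1 : ∀ k : Fin 21, (G n M N).Adj u1 (φ (Sum.inr k)) := by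
    intro k
    apply φ.map_adj
    simp
  have hmem : ∀ k : Fin 21, φ (Sum.inr k) ∈ near u0 ∪ near u1 := by
    intro k
    rcases adj_near (a0 k) with h | h
    · left; exact h
    · rcases adj_near (a1 k) with h' | h'
      · right; exact h'
      · exfalso
        apply h01
        obtain ⟨x, w, e1, e2⟩ := h
        obtain ⟨x', w', e1', e2'⟩ := h'
        rw [e1] at e1'
        simp only [List.cons.injEq] at e1'
        obtain ⟨rfl, rfl⟩ := e1'
        rw [e2] at e2'
        exact Subtype.ext (Option.some.inj e2')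
  have hinj : Function.Injective (fun k : Fin 21 => φ (Sum.inr k)) := by
    intro a b hab
    have := hφ hab
    simpa using this
  have h1 : (Set.range (fun k : Fin 21 => φ (Sum.inr k))).ncard = 21 := by
    rw [← Set.image_univ, Set.ncard_image_of_injective _ hinj, Set.ncard_univ]
    simp
  have h2 : (Set.range (fun k : Fin 21 => φ (Sum.inr k))).ncard ≤ (near u0 ∪ near u1).ncard := by
    apply Set.ncard_le_ncard _ (Set.toFinite _)
    rintro _ ⟨k, rfl⟩
    exact hmem k
  have h3 := Set.ncard_union_le (near u0) (near u1)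
  have h4 := near_card u0
  have h5 := near_card u1
  omega

/-! ### colourings -/

lemma boss_adj {w : List (Lt n M)} (hw : w.length < N) (x : Lt n M) {b : List (Lt n M)}
    (hb : boss w x.1 = some b) :
    (G n M N).Adj ⟨b, (boss_length w x.1 b hb).trans hw.le⟩ ⟨x :: w, hw⟩ := by
  rw [G, SimpleGraph.fromRel_adj]
  refine ⟨?_, Or.inr (Or.inr ⟨x, w, rfl, hb⟩)⟩
  intro h
  have h1 : b = x :: w := congrArg Subtype.val h
  have h2 := boss_length w x.1 b hb
  rw [h1] at h2
  simp at h2

lemma grid_adj {w : List (Lt n M)} (hw : w.length < N) (q : Fin M) {i j k l : Fin n}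
    (h : T ((i : ℕ), (j : ℕ)) ((k : ℕ), (l : ℕ))) :
    (G n M N).Adj ⟨(i, q, j) :: w, hw⟩ ⟨(k, q, l) :: w, hw⟩ := by
  rw [G, SimpleGraph.fromRel_adj]
  refine ⟨?_, Or.inl (Or.inl ⟨w, q, i, j, k, l, rfl, rfl, h⟩)⟩
  intro h'
  have h1 : (i, q, j) :: w = (k, q, l) :: w := congrArg Subtype.val h'
  simp only [List.cons.injEq, Prod.mk.injEq] at h1
  obtain ⟨⟨rfl, -, rfl⟩, -⟩ := h1
  simp only [T] at h
  omega

/-- monochromatic subgraph -/
def mono (col : Vx n M N → Fin 3) : SimpleGraph (Vx n M N) :=
  G n M N ⊓ SimpleGraph.fromRel (fun x y => col x = col y)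

lemma mono_adj {col : Vx n M N → Fin 3} {u v : Vx n M N} (h : (G n M N).Adj u v)
    (h' : col u = col v) : (mono col).Adj u v := by
  rw [mono, SimpleGraph.inf_adj, SimpleGraph.fromRel_adj]
  exact ⟨h, h.ne, Or.inl h'⟩

section

variable {c : ℕ} (hM : n * c < M) (hn : n = c + 1) (col : Vx n M N → Fin 3)
  (hcol : ∀ v, Set.ncard {u | (mono col).Reachable v u} ≤ c)

include hcol in
lemma card_reach {α : Type} [Fintype α] (v : Vx n M N) (F : α → Vx n M N)
    (hF : Function.Injective F) (hr : ∀ a, (mono col).Reachable v (F a)) :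
    Fintype.card α ≤ c := by
  have h1 : Set.range F ⊆ {u | (mono col).Reachable v u} := by
    rintro _ ⟨a, rfl⟩
    exact hr a
  have h2 := Set.ncard_le_ncard h1 (Set.toFinite _)
  rw [← Set.image_univ, Set.ncard_image_of_injective _ hF, Set.ncard_univ,
    Nat.card_eq_fintype_card] at h2
  exact h2.trans (hcol v)

include hM hcol in
/-- some strip at the node `w` has no vertex with the colour of its boss -/
lemma no_exception (w : List (Lt n M)) (hw : w.length < N) :
    ∃ q : Fin M, ∀ (i j : Fin n) (b : List (Lt n M)) (hb : boss w i = some b),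
      col ⟨(i, q, j) :: w, hw⟩ ≠ col ⟨b, (boss_length w i b hb).trans hw.le⟩ := by
  classical
  by_contra hcon
  push Not at hcon
  choose fi fj fb hb hcc using hcon
  obtain ⟨i, hi⟩ := Fintype.exists_lt_card_fiber_of_mul_lt_card fi
    (n := c) (by simpa using hM)
  have hpos : 0 < (Finset.univ.filter (fun q => fi q = i)).card := by omega
  obtain ⟨q0, hq0⟩ := Finset.card_pos.mp hpos
  rw [Finset.mem_filter] at hq0
  have hb0 : boss w i = some (fb q0) := by rw [← hq0.2]; exact hb q0
  have := card_reach col hcol (α := {q // q ∈ Finset.univ.filter (fun q => fi q = i)})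
    ⟨fb q0, (boss_length w i _ hb0).trans hw.le⟩
    (fun q => ⟨(i, q.1, fj q.1) :: w, hw⟩) (by
      intro q q' hqq
      have h1 : (i, q.1, fj q.1) :: w = (i, q'.1, fj q'.1) :: w := congrArg Subtype.val hqq
      simp only [List.cons.injEq, Prod.mk.injEq] at h1
      exact Subtype.ext h1.1.2.1) (by
      rintro ⟨q, hq⟩
      rw [Finset.mem_filter] at hq
      obtain ⟨-, rfl⟩ := hq
      have hbq : fb q = fb q0 := by
        have := hb q
        rw [hb0] at this
        exact (Option.some.inj this).symm
      apply SimpleGraph.Adj.reachable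
      apply mono_adj
      · exact boss_adj hw (fi q, q, fj q) hb0
      · have := hcc q
        simp only [hbq] at this
        exact this.symm)
  rw [Fintype.card_coe] at this
  omega

include hn hcol in
/-- no row of a strip is monochromatic -/
lemma no_mono_row (w : List (Lt n M)) (hw : w.length < N) (i : Fin n) (q : Fin M)
    (hmono : ∀ j k : Fin n, col ⟨(i, q, j) :: w, hw⟩ = col ⟨(i, q, k) :: w, hw⟩) : False := by
  have hn0 : 0 < n := by omega
  have key : ∀ k : ℕ, ∀ hk : k < n, (mono col).Reachable ⟨(i, q, ⟨0, hn0⟩) :: w, hw⟩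
      ⟨(i, q, ⟨k, hk⟩) :: w, hw⟩ := by
    intro k
    induction k with
    | zero => intro hk; exact SimpleGraph.Reachable.refl _
    | succ k ih =>
      intro hk
      refine (ih (by omega)).trans ?_
      apply SimpleGraph.Adj.reachable
      apply mono_adj
      · apply grid_adj
        left
        exact ⟨rfl, rfl⟩
      · exact hmono _ _
  have := card_reach col hcol ⟨(i, q, ⟨0, hn0⟩) :: w, hw⟩
    (fun k : Fin n => ⟨(i, q, k) :: w, hw⟩) (by
      intro k l hkl
      have h1 : (i, q, k) :: w = (i, q, l) :: w := congrArg Subtype.val hkl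
      simp only [List.cons.injEq, Prod.mk.injEq] at h1
      exact h1.1.2.2) (fun k => key k.1 k.2)
  rw [Fintype.card_fin] at this
  omega

lemma third : ∀ a b x y : Fin 3, a ≠ b → x ≠ a → x ≠ b → y ≠ a → y ≠ b → x = y := by decide

include hM hn hcol in
/-- if the boss of row `i` does not have colour `a` then row `i` has a vertex of colour `a` -/
lemma find_color (w : List (Lt n M)) (hw : w.length < N) (i : Fin n) (b : List (Lt n M))
    (hb : boss w i = some b) (a : Fin 3)
    (hba : col ⟨b, (boss_length w i b hb).trans hw.le⟩ ≠ a) :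
    ∃ x : Lt n M, x.1 = i ∧ col ⟨x :: w, hw⟩ = a := by
  obtain ⟨q, hq⟩ := no_exception hM col hcol w hw
  by_contra hcon
  push Not at hcon
  refine no_mono_row hn col hcol w hw i q ?_
  intro j k
  exact third _ _ _ _ hba (hq i j b hb) (hcon (i, q, j) rfl) (hq i k b hb) (hcon (i, q, k) rfl)

include hM hn hcol in
lemma all_bosses (hN : N = 2 * n + 1) (a : Fin 3) : ∀ r : ℕ, r ≤ n →
    ∃ w : List (Lt n M), w.length ≤ 2 * r ∧ ∀ i : Fin n, i.val < r →
      ∃ b, boss w i = some b ∧ ∀ h : b.length ≤ N, col ⟨b, h⟩ = a := by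
  intro r
  induction r with
  | zero =>
    intro _
    exact ⟨[], by simp, fun i hi => absurd hi (Nat.not_lt_zero _)⟩
  | succ r ih =>
    intro hr
    obtain ⟨w, hw, hwb⟩ := ih (by omega)
    have hrn : r < n := by omega
    have hn0 : 0 < n := by omega
    have hM0 : 0 < M := by omega
    set x0 : Lt n M := (⟨r, hrn⟩, ⟨0, hM0⟩, ⟨0, hn0⟩) with hx0
    have hl1 : (x0 :: w).length ≤ N := by simp only [List.length_cons]; omega
    by_cases h1 : col ⟨x0 :: w, hl1⟩ = a
    · refine ⟨x0 :: w, by simp only [List.length_cons]; omega, ?_⟩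
      intro i hi
      by_cases hir : i = ⟨r, hrn⟩
      · refine ⟨x0 :: w, ?_, fun _ => h1⟩
        simp [boss, hx0, hir]
      · have hi' : i.val < r := by
          have : i.val ≠ r := fun h => hir (Fin.ext h)
          omega
        obtain ⟨b, hb, hb'⟩ := hwb i hi'
        refine ⟨b, ?_, hb'⟩
        have hne : (⟨r, hrn⟩ : Fin n) ≠ i := fun h => hir h.symm
        simp [boss, hx0, hne, hb]
    · have hboss0 : boss (x0 :: w) ⟨r, hrn⟩ = some (x0 :: w) := by simp [boss, hx0]
      have hw1 : (x0 :: w).length < N := by simp only [List.length_cons]; omega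
      obtain ⟨x, hx1, hx2⟩ := find_color hM hn col hcol (x0 :: w) hw1 ⟨r, hrn⟩ (x0 :: w) hboss0 a h1
      refine ⟨x :: x0 :: w, by simp only [List.length_cons]; omega, ?_⟩
      intro i hi
      by_cases hir : i = ⟨r, hrn⟩
      · refine ⟨x :: x0 :: w, ?_, fun _ => hx2⟩
        simp [boss, hx1, hir]
      · have hi' : i.val < r := by
          have : i.val ≠ r := fun h => hir (Fin.ext h)
          omega
        obtain ⟨b, hb, hb'⟩ := hwb i hi'
        refine ⟨b, ?_, hb'⟩
        have hne : (⟨r, hrn⟩ : Fin n) ≠ i := fun h => hir h.symm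
        simp [boss, hx0, hx1, hne, hb]

lemma two_colors : ∀ x y : Fin 3, x ≠ 0 → y ≠ 0 → (decide (x = 1) = decide (y = 1)) → x = y := by
  decide

include hM hn hcol in
theorem no_coloring (hN : N = 2 * n + 1) : False := by
  obtain ⟨w, hw, hwb⟩ := all_bosses hM hn col hcol hN 0 n le_rfl
  have hw' : w.length < N := by omega
  obtain ⟨q, hq⟩ := no_exception hM col hcol w hw'
  set f : Fin n × Fin n → Bool := fun x => decide (col ⟨(x.1, q, x.2) :: w, hw'⟩ = 1) with hf
  have hne : ∀ i j : Fin n, col ⟨(i, q, j) :: w, hw'⟩ ≠ 0 := by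
    intro i j h0
    obtain ⟨b, hb, hb'⟩ := hwb i i.2
    have h1 := hq i j b hb
    rw [hb' ((boss_length w i b hb).trans hw'.le)] at h1
    exact h1 h0
  obtain ⟨v, hv⟩ := hex n (by omega) f
  set F : Fin n × Fin n → Vx n M N := fun x => ⟨(x.1, q, x.2) :: w, hw'⟩ with hF
  have hFinj : Function.Injective F := by
    intro x y hxy
    have h1 : (x.1, q, x.2) :: w = (y.1, q, y.2) :: w := congrArg Subtype.val hxy
    simp only [List.cons.injEq, Prod.mk.injEq] at h1
    exact Prod.ext h1.1.1 h1.1.2.2
  have hreach : ∀ x y, (monoGrid n f).Reachable x y → (mono col).Reachable (F x) (F y) := by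
    intro x y hxy
    rw [SimpleGraph.reachable_iff_reflTransGen] at hxy
    induction hxy with
    | refl => exact SimpleGraph.Reachable.refl _
    | @tail y z _ h2 ih =>
      refine ih.trans ?_
      apply SimpleGraph.Adj.reachable
      have hc : col (F y) = col (F z) := two_colors _ _ (hne _ _) (hne _ _) h2.2
      rcases h2.1 with h | h
      · exact mono_adj (grid_adj hw' q h) hc
      · exact mono_adj (grid_adj hw' q h).symm hc
  have h1 : F '' {u | (monoGrid n f).Reachable v u} ⊆ {u | (mono col).Reachable (F v) u} := by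
    rintro _ ⟨u, hu, rfl⟩
    exact hreach v u hu
  have h2 := Set.ncard_le_ncard h1 (Set.toFinite _)
  rw [Set.ncard_image_of_injective _ hFinj] at h2
  have h3 := hcol (F v)
  omega

end

end Pool.Agent.Lib_helper92.LTW
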