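import Mathlib
import Pool.Agent.Lib_helper92.A5Prod

/-!
2-groups with a cyclic normal subgroup `X` and commutator subgroup of order two inside `X`: all
their non-normal subgroups meet `X` trivially.
-/

set_option autoImplicit false

namespace Pool.Agent.Lib_helper92.A5

/-- the value `2 ^ (m + 1)` of order two in `ZMod (2 ^ (m + 2))` -/
def zz (m : ℕ) : ZMod (2 ^ (m + 2)) := ((2 ^ (m + 1) : ℕ) : ZMod (2 ^ (m + 2)))

lemma zz_add (m : ℕ) : zz m + zz m = 0 := by
  unfold zz
  rw [← Nat.cast_add, ← two_mul, ← pow_succ']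
  exact ZMod.natCast_self _

lemma zz_ne (m : ℕ) : zz m ≠ 0 := by
  unfold zz
  intro h
  rw [ZMod.natCast_eq_zero_iff] at h
  have := Nat.le_of_dvd (by positivity) h
  have h2 : 2 ^ (m + 1) < 2 ^ (m + 2) := Nat.pow_lt_pow_right (by norm_num) (by omega)
  omega

/-- reduction modulo two -/
def par (m : ℕ) : ZMod (2 ^ (m + 2)) →+* ZMod 2 :=
  ZMod.castHom (dvd_pow_self 2 (by omega)) (ZMod 2)

lemma par_zz (m : ℕ) : par m (zz m) = 0 := by
  unfold zz par
  rw [map_natCast, ZMod.natCast_eq_zero_iff]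
  exact dvd_pow_self 2 (by omega)

/-- the embedding of `ZMod 2` -/
def psi (m : ℕ) (t : ZMod 2) : ZMod (2 ^ (m + 2)) := if t = 0 then 0 else zz m

lemma psi_zero (m : ℕ) : psi m 0 = 0 := by simp [psi]
lemma psi_one (m : ℕ) : psi m 1 = zz m := by simp [psi]

lemma psi_add (m : ℕ) (s t : ZMod 2) : psi m (s + t) = psi m s + psi m t := by
  have h : ∀ x : ZMod 2, x = 0 ∨ x = 1 := by decide
  rcases h s with rfl | rfl
  · rw [zero_add, psi_zero, zero_add]
  · rcases h t with rfl | rfl
    · rw [add_zero, psi_zero, add_zero]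
    · have h2 : (1 : ZMod 2) + 1 = 0 := by decide
      rw [h2, psi_zero, psi_one, zz_add]

lemma par_psi (m : ℕ) (t : ZMod 2) : par m (psi m t) = 0 := by
  unfold psi
  split_ifs
  · exact map_zero _
  · exact par_zz m

lemma psi_cases (m : ℕ) (t : ZMod 2) : psi m t = 0 ∨ psi m t = zz m := by
  unfold psi
  split_ifs
  · left; rfl
  · right; rfl

/-- an element of `ZMod (2 ^ (m + 2))` killed by two is `0` or `zz m` -/
lemma two_torsion (m : ℕ) (a : ZMod (2 ^ (m + 2))) (h : a + a = 0) : a = 0 ∨ a = zz m := by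
  have hpos : 0 < 2 ^ (m + 2) := by positivity
  have : NeZero (2 ^ (m + 2)) := ⟨hpos.ne'⟩
  have h1 : ((a.val + a.val : ℕ) : ZMod (2 ^ (m + 2))) = 0 := by
    rw [Nat.cast_add, ZMod.natCast_zmod_val]; exact h
  rw [ZMod.natCast_eq_zero_iff] at h1
  have h2 := ZMod.val_lt a
  obtain ⟨v, hv⟩ : ∃ v, v = a.val := ⟨_, rfl⟩
  rw [← hv] at h1 h2
  obtain ⟨k, hk⟩ := h1
  have h3 : 2 ^ (m + 2) = 2 * 2 ^ (m + 1) := by ring
  rw [h3] at hk h2
  have h4 : v = 2 ^ (m + 1) * k := by
    have : 2 * v = 2 * (2 ^ (m + 1) * k) := by rw [← mul_assoc, ← hk]; ring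
    omega
  have h5 : k < 2 := by
    by_contra hk2
    have : 2 ^ (m + 1) * 2 ≤ 2 ^ (m + 1) * k := Nat.mul_le_mul_left _ (by omega)
    omega
  interval_cases k
  · left
    rw [mul_zero] at h4
    exact (ZMod.val_eq_zero a).mp (hv.symm.trans h4)
  · right
    rw [mul_one] at h4
    unfold zz
    rw [← h4, hv, ZMod.natCast_zmod_val]

/-- each non-zero element of `ZMod (2 ^ (m + 2))` has `zz m` as a multiple -/
lemma exists_multiple (m : ℕ) (a : ZMod (2 ^ (m + 2))) (ha : a ≠ 0) :
    ∃ k : ℕ, k • a = zz m := by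
  have hex : ∃ j : ℕ, 2 ^ j • a = 0 := by
    refine ⟨m + 2, ?_⟩
    rw [nsmul_eq_mul, ZMod.natCast_self, zero_mul]
  classical
  let j := Nat.find hex
  have hj : 2 ^ j • a = 0 := Nat.find_spec hex
  have hj0 : j ≠ 0 := by
    intro h
    rw [h, pow_zero, one_smul] at hj
    exact ha hj
  obtain ⟨i, hi⟩ : ∃ i, j = i + 1 := ⟨j - 1, by omega⟩
  have h1 : 2 ^ i • a ≠ 0 := Nat.find_min hex (by change i < j; omega)
  have h2 : 2 ^ i • a + 2 ^ i • a = 0 := by
    rw [← add_smul, ← two_mul, ← pow_succ', ← hi]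
    exact hj
  rcases two_torsion m _ h2 with h | h
  · exact absurd h h1
  · exact ⟨_, h⟩

/-- underlying type of the group `X ⋊ B` with `X` cyclic of order `2 ^ (m + 2)`, on which `b`
acts as multiplication by `1 + 2 ^ (m + 1)` if `χ b = 1` and trivially otherwise -/
@[ext] structure MG (m : ℕ) (B : Type) [AddCommGroup B] (χ : B →+ ZMod 2) where
  /-- first component -/
  fst : ZMod (2 ^ (m + 2))
  /-- second component -/
  snd : B

variable {m : ℕ} {B : Type} [AddCommGroup B] {χ : B →+ ZMod 2}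

/-- the cocycle -/
def coc (m : ℕ) (χ : B →+ ZMod 2) (b : B) (a : ZMod (2 ^ (m + 2))) : ZMod (2 ^ (m + 2)) :=
  psi m (χ b * par m a)

lemma coc_add_left (b b' : B) (a : ZMod (2 ^ (m + 2))) :
    coc m χ (b + b') a = coc m χ b a + coc m χ b' a := by
  unfold coc
  rw [map_add, add_mul, psi_add]

lemma coc_add_right (b : B) (a a' : ZMod (2 ^ (m + 2))) :
    coc m χ b (a + a') = coc m χ b a + coc m χ b a' := by
  unfold coc
  rw [map_add, mul_add, psi_add]

lemma coc_zero_left (a : ZMod (2 ^ (m + 2))) : coc m χ 0 a = 0 := by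
  unfold coc
  rw [map_zero, zero_mul, psi_zero]

lemma coc_zero_right (b : B) : coc m χ b 0 = 0 := by
  unfold coc
  rw [map_zero, mul_zero, psi_zero]

lemma coc_coc (b b' : B) (a : ZMod (2 ^ (m + 2))) : coc m χ b (coc m χ b' a) = 0 := by
  unfold coc
  rw [par_psi, mul_zero, psi_zero]

lemma coc_cases (b : B) (a : ZMod (2 ^ (m + 2))) : coc m χ b a = 0 ∨ coc m χ b a = zz m :=
  psi_cases m _

lemma coc_two (b : B) (a : ZMod (2 ^ (m + 2))) : coc m χ b a + coc m χ b a = 0 := by
  rcases coc_cases (χ := χ) b a with h | h <;> rw [h]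
  · exact add_zero 0
  · exact zz_add m

namespace MG

instance : Mul (MG m B χ) := ⟨fun x y => ⟨x.fst + y.fst + coc m χ x.snd y.fst, x.snd + y.snd⟩⟩
instance : One (MG m B χ) := ⟨⟨0, 0⟩⟩
instance : Inv (MG m B χ) := ⟨fun x => ⟨-x.fst + coc m χ x.snd x.fst, -x.snd⟩⟩

@[simp] lemma mul_fst (x y : MG m B χ) : (x * y).fst = x.fst + y.fst + coc m χ x.snd y.fst := rfl
@[simp] lemma mul_snd (x y : MG m B χ) : (x * y).snd = x.snd + y.snd := rfl
@[simp] lemma one_fst : (1 : MG m B χ).fst = 0 := rfl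
@[simp] lemma one_snd : (1 : MG m B χ).snd = 0 := rfl
@[simp] lemma inv_fst (x : MG m B χ) : (x⁻¹).fst = -x.fst + coc m χ x.snd x.fst := rfl
@[simp] lemma inv_snd (x : MG m B χ) : (x⁻¹).snd = -x.snd := rfl

instance : Group (MG m B χ) :=
  Group.ofLeftAxioms
    (by
      intro x y z
      ext
      · simp only [mul_fst, mul_snd, coc_add_left, coc_add_right, coc_coc]
        ring
      · simp only [mul_snd, add_assoc])
    (by
      intro x
      ext
      · simp only [mul_fst, one_fst, one_snd, coc_zero_left]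
        ring
      · simp)
    (by
      intro x
      ext
      · simp only [mul_fst, inv_fst, inv_snd, one_fst]
        have h : coc m χ (-x.snd) x.fst = - coc m χ x.snd x.fst := by
          have := coc_add_left (χ := χ) (x.snd) (-x.snd) x.fst
          rw [add_neg_cancel, coc_zero_left] at this
          exact (neg_eq_of_add_eq_zero_right this.symm).symm
        rw [h]
        ring
      · simp)

/-- `MG` as a product -/
def equivProd : MG m B χ ≃ ZMod (2 ^ (m + 2)) × B where
  toFun x := (x.fst, x.snd)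
  invFun x := ⟨x.1, x.2⟩
  left_inv _ := rfl
  right_inv _ := rfl

instance : NeZero (2 ^ (m + 2)) := ⟨by positivity⟩

instance [Finite B] : Finite (MG m B χ) := Finite.of_equiv _ equivProd.symm

lemma card : Nat.card (MG m B χ) = 2 ^ (m + 2) * Nat.card B := by
  rw [Nat.card_congr equivProd, Nat.card_prod, Nat.card_zmod]

/-- the central involution -/
def z : MG m B χ := ⟨zz m, 0⟩

lemma commute_formula (g u : MG m B χ) :
    g * u * g⁻¹ = (⟨coc m χ g.snd u.fst - coc m χ u.snd g.fst, 0⟩ : MG m B χ) * u := by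
  rw [mul_inv_eq_iff_eq_mul]
  ext
  · simp only [mul_fst, mul_snd, coc_zero_left]
    have := coc_two (χ := χ) u.snd g.fst
    rw [zero_add]
    ring
  · simp only [mul_snd]
    rw [zero_add, add_comm]

lemma normal_of_z_mem (U : Subgroup (MG m B χ)) (hz : z ∈ U) : U.Normal := by
  constructor
  intro u hu g
  rw [commute_formula]
  refine U.mul_mem ?_ hu
  have hcases : coc m χ g.snd u.fst - coc m χ u.snd g.fst = 0 ∨
      coc m χ g.snd u.fst - coc m χ u.snd g.fst = zz m := by
    rcases coc_cases (χ := χ) g.snd u.fst with h | h <;>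
      rcases coc_cases (χ := χ) u.snd g.fst with h' | h' <;> rw [h, h']
    · left; ring
    · right
      have := zz_add m
      linear_combination -this
    · right; ring
    · left; ring
  rcases hcases with h | h
  · rw [h]; exact U.one_mem
  · rw [h]; exact hz

lemma pow_snd_zero (x : ZMod (2 ^ (m + 2))) (k : ℕ) :
    (⟨x, 0⟩ : MG m B χ) ^ k = ⟨k • x, 0⟩ := by
  induction k with
  | zero => rw [pow_zero, zero_smul]; rfl
  | succ k ih =>
    rw [pow_succ, ih]
    ext
    · simp only [mul_fst, coc_zero_left, add_zero, succ_nsmul]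
    · simp only [mul_snd, add_zero]

/-- the projection to `B` -/
def projB : MG m B χ →* Multiplicative B where
  toFun x := Multiplicative.ofAdd x.snd
  map_one' := rfl
  map_mul' _ _ := rfl

lemma card_dvd_of_not_normal [Finite B] (U : Subgroup (MG m B χ)) (hU : ¬ U.Normal) :
    Nat.card U ∣ Nat.card B := by
  have hz : z ∉ U := fun h => hU (normal_of_z_mem U h)
  have hinj : Function.Injective (projB.comp U.subtype) := by
    rw [injective_iff_map_eq_one]
    rintro ⟨⟨x, b⟩, hxb⟩ h1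
    have hb : b = 0 := h1
    subst hb
    by_cases hx : x = 0
    · subst hx; rfl
    · exfalso
      obtain ⟨k, hk⟩ := exists_multiple m x hx
      apply hz
      have h2 := U.pow_mem hxb k
      rw [pow_snd_zero, hk] at h2
      exact h2
  have h := Subgroup.card_dvd_of_injective _ hinj
  rwa [Nat.card_congr (Multiplicative.toAdd (α := B))] at h

/-- the subgroup of the complement given by a subgroup of `B` -/
def ofB (C : AddSubgroup B) : Subgroup (MG m B χ) where
  carrier := {x | x.fst = 0 ∧ x.snd ∈ C}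
  mul_mem' := by
    rintro x y ⟨h1, h2⟩ ⟨h3, h4⟩
    refine ⟨?_, C.add_mem h2 h4⟩
    simp only [mul_fst, h1, h3, coc_zero_right, add_zero]
  one_mem' := ⟨rfl, C.zero_mem⟩
  inv_mem' := by
    rintro x ⟨h1, h2⟩
    refine ⟨?_, C.neg_mem h2⟩
    simp only [inv_fst, h1, coc_zero_right, neg_zero, add_zero]

lemma card_ofB (C : AddSubgroup B) : Nat.card (ofB C : Subgroup (MG m B χ)) = Nat.card C := by
  apply Nat.card_congr
  exact ⟨fun x => ⟨x.1.snd, x.2.2⟩, fun y => ⟨⟨0, y.1⟩, rfl, y.2⟩,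
    fun x => Subtype.ext (MG.ext x.2.1.symm rfl), fun y => rfl⟩

lemma not_normal_ofB (C : AddSubgroup B) (b : B) (hb : b ∈ C) (hχ : χ b = 1) :
    ¬ (ofB C : Subgroup (MG m B χ)).Normal := by
  intro hn
  have h1 := hn.conj_mem ⟨0, b⟩ ⟨rfl, hb⟩ ⟨1, 0⟩
  rw [commute_formula] at h1
  have h2 := h1.1
  simp only [mul_fst, coc_zero_right] at h2
  have h3 : coc m χ b 1 = zz m := by
    unfold coc
    rw [hχ, map_one, one_mul, psi_one]
  rw [h3] at h2
  apply zz_ne m
  linear_combination -h2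

end MG

/-- the group with exactly one order of non-normal subgroups -/
abbrev P1 (m : ℕ) : Type := MG m (ZMod 2) (AddMonoidHom.id _)
/-- the group with exactly two orders of non-normal subgroups -/
abbrev P2 (m : ℕ) : Type := MG m (ZMod 2 × ZMod 2) (AddMonoidHom.fst _ _)

lemma card_P1 (m : ℕ) : Nat.card (P1 m) = 2 ^ (m + 3) := by
  rw [MG.card, Nat.card_zmod]; ring

lemma card_P2 (m : ℕ) : Nat.card (P2 m) = 2 ^ (m + 4) := by
  rw [MG.card, Nat.card_prod, Nat.card_zmod]; ring

lemma one_notin {G : Type} [Group G] {n : ℕ} (hn : n ∈ NN G) : n ≠ 1 := by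
  obtain ⟨H, rfl, hH⟩ := hn
  intro h
  rw [Subgroup.card_eq_one] at h
  apply hH
  rw [h]
  infer_instance

lemma NN_P1 (m : ℕ) : NN (P1 m) = {2} := by
  ext n
  constructor
  · intro hn
    have h1 := one_notin hn
    obtain ⟨U, rfl, hU⟩ := hn
    have h2 := MG.card_dvd_of_not_normal U hU
    rw [Nat.card_zmod, Nat.dvd_prime Nat.prime_two] at h2
    rcases h2 with h | h
    · exact absurd h h1
    · exact h
  · rintro rfl
    refine ⟨MG.ofB ⊤, ?_, MG.not_normal_ofB ⊤ 1 trivial rfl⟩
    rw [MG.card_ofB, AddSubgroup.card_top, Nat.card_zmod]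

lemma NN_P2 (m : ℕ) : NN (P2 m) = {2, 4} := by
  ext n
  constructor
  · intro hn
    have h1 := one_notin hn
    obtain ⟨U, rfl, hU⟩ := hn
    have h2 := MG.card_dvd_of_not_normal U hU
    rw [Nat.card_prod, Nat.card_zmod] at h2
    have h3 : Nat.card U ≤ 4 := Nat.le_of_dvd (by norm_num) h2
    have h4 : 0 < Nat.card U := Nat.card_pos
    interval_cases Nat.card U
    · exact absurd rfl h1
    · simp
    · norm_num at h2
    · simp
  · rintro (rfl | rfl)
    · refine ⟨MG.ofB (AddSubgroup.zmultiples ((1 : ZMod 2), (0 : ZMod 2))), ?_,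
        MG.not_normal_ofB _ (1, 0) (AddSubgroup.mem_zmultiples _) rfl⟩
      rw [MG.card_ofB, Nat.card_zmultiples]
      apply addOrderOf_eq_prime
      · decide
      · decide
    · refine ⟨MG.ofB ⊤, ?_, MG.not_normal_ofB ⊤ (1, 0) trivial rfl⟩
      rw [MG.card_ofB, AddSubgroup.card_top, Nat.card_prod, Nat.card_zmod]

lemma ncard_P1 (m : ℕ) : (NN (P1 m)).ncard = 1 := by rw [NN_P1, Set.ncard_singleton]
lemma ncard_P2 (m : ℕ) : (NN (P2 m)).ncard = 2 := by
  rw [NN_P2]
  exact Set.ncard_pair (by norm_num)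

/-- a cyclic group of order `2 ^ (a + 1)` -/
abbrev P0 (a : ℕ) : Type := Multiplicative (ZMod (2 ^ (a + 1)))

instance (a : ℕ) : NeZero (2 ^ (a + 1)) := ⟨by positivity⟩

lemma card_P0 (a : ℕ) : Nat.card (P0 a) = 2 ^ (a + 1) := by
  rw [Nat.card_congr (Multiplicative.toAdd (α := ZMod (2 ^ (a + 1)))), Nat.card_zmod]

lemma ncard_P0 (a : ℕ) : (NN (P0 a)).ncard = 0 := by
  have : NN (P0 a) = ∅ := by
    ext n
    constructor
    · rintro ⟨H, -, hH⟩
      exact absurd (inferInstance : H.Normal) hH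
    · intro h
      exact absurd h (Set.notMem_empty _)
  rw [this, Set.ncard_empty]

end Pool.Agent.Lib_helper92.A5
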