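import Mathlib

/-!
2-adic valuations of the coefficients of the powers of
`F = (1-x)⁻¹ ∏ (1 - x^(4^i))⁻³`.
-/

set_option autoImplicit false

namespace Pool.Agent.Lib_helper92.Part4

open PowerSeries Finset

/-- binomial coefficients of `(1 - x) ^ 3` -/
def c (r : ℕ) : ℤ := if r = 0 then 1 else if r = 1 then -3 else if r = 2 then 3 else -1

/-- coefficients of `∏ (1 - x ^ (4 ^ i)) ^ 3` -/
def b (n : ℕ) : ℤ := if _h : n = 0 then 1 else c (n % 4) * b (n / 4)
decreasing_by exact Nat.div_lt_self (Nat.pos_of_ne_zero _h) (by norm_num)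

lemma b_zero : b 0 = 1 := by rw [b]; simp

lemma b_eq (n : ℕ) : b n = c (n % 4) * b (n / 4) := by
  by_cases h : n = 0
  · subst h; simp [b_zero, c]
  · rw [b, dif_neg h]

lemma b_rec (k r : ℕ) (hr : r < 4) : b (4 * k + r) = c r * b k := by
  rw [b_eq]
  congr 2 <;> omega

lemma b_odd (n : ℕ) : b n % 2 = 1 := by
  induction n using Nat.strong_induction_on with
  | _ n ih =>
    by_cases h : n = 0
    · subst h; rw [b_zero]; rfl
    · rw [b_eq, Int.mul_emod, ih (n / 4) (Nat.div_lt_self (Nat.pos_of_ne_zero h) (by norm_num))]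
      have h4 : n % 4 < 4 := Nat.mod_lt _ (by norm_num)
      interval_cases (n % 4) <;> simp [c]

/-- the series `∏ (1 - x ^ (4 ^ i)) ^ 3` -/
noncomputable def B : PowerSeries ℤ := PowerSeries.mk b

/-- substitution of `x ^ 4` for `x` -/
noncomputable abbrev ex : PowerSeries ℤ →ₐ[ℤ] PowerSeries ℤ := PowerSeries.expand 4 (by norm_num)

lemma coeff_ex (f : PowerSeries ℤ) (n : ℕ) :
    coeff n (ex f) = if 4 ∣ n then coeff (n / 4) f else 0 :=
  PowerSeries.coeff_expand 4 _ f

lemma coeff_X_pow_mul_ex (f : PowerSeries ℤ) (r k s : ℕ) (hr : r < 4) (hs : s < 4) :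
    coeff (4 * k + r) (X ^ s * ex f) = if r = s then coeff k f else 0 := by
  rw [PowerSeries.coeff_X_pow_mul']
  split_ifs with h1 h2 h2
  · rw [coeff_ex, if_pos (by omega)]
    congr 2
    omega
  · rw [coeff_ex, if_neg (by omega)]
  · omega
  · rfl

lemma B_eq : B = (1 - X) ^ 3 * ex B := by
  have h1 : ((1 : PowerSeries ℤ) - X) ^ 3 * ex B =
      X ^ 0 * ex B - 3 • (X ^ 1 * ex B) + 3 • (X ^ 2 * ex B) - X ^ 3 * ex B := by
    simp only [nsmul_eq_mul]
    push_cast
    ring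
  rw [h1]
  ext n
  obtain ⟨k, r, hr, rfl⟩ : ∃ k r, r < 4 ∧ n = 4 * k + r :=
    ⟨n / 4, n % 4, Nat.mod_lt _ (by norm_num), by omega⟩
  simp only [map_sub, map_add, map_nsmul]
  rw [coeff_X_pow_mul_ex _ _ _ _ hr (by norm_num), coeff_X_pow_mul_ex _ _ _ _ hr (by norm_num),
    coeff_X_pow_mul_ex _ _ _ _ hr (by norm_num), coeff_X_pow_mul_ex _ _ _ _ hr (by norm_num)]
  rw [B, coeff_mk, coeff_mk, b_rec k r hr]
  interval_cases r <;> simp [c]

/-- `E = (1-x) ∏ (1 - x^(4^i))^3` -/
noncomputable def E : PowerSeries ℤ := (1 - X) * B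

lemma E_eq : (1 - X ^ 4) * E = (1 - X) ^ 4 * ex E := by
  have h1 : ex E = (1 - X ^ 4) * ex B := by
    rw [E, map_mul, map_sub, map_one]
    congr 2
    exact PowerSeries.expand_X 4 (by norm_num)
  rw [h1]
  conv_lhs => rw [E, B_eq]
  ring

lemma coeff_E_zero : coeff 0 E = 1 := by
  rw [E, PowerSeries.coeff_zero_eq_constantCoeff, map_mul]
  simp [B, b_zero]

lemma coeff_E_succ (n : ℕ) : coeff (n + 1) E = b (n + 1) - b n := by
  have : E = B - X * B := by rw [E]; ring
  rw [this, map_sub, PowerSeries.coeff_succ_X_mul, B, coeff_mk, coeff_mk]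

lemma coeff_E_pos (n : ℕ) (hn : n ≠ 0) : coeff n E = b n - b (n - 1) := by
  obtain ⟨m, rfl⟩ : ∃ m, n = m + 1 := ⟨n - 1, by omega⟩
  exact coeff_E_succ m

lemma E1 (k : ℕ) : coeff (4 * k + 1) E = -4 * b k := by
  rw [coeff_E_pos _ (by omega), b_rec k 1 (by norm_num)]
  have : 4 * k + 1 - 1 = 4 * k + 0 := by omega
  rw [this, b_rec k 0 (by norm_num)]
  simp [c]; ring

lemma E2 (k : ℕ) : coeff (4 * k + 2) E = 6 * b k := by
  rw [coeff_E_pos _ (by omega), b_rec k 2 (by norm_num)]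
  have : 4 * k + 2 - 1 = 4 * k + 1 := by omega
  rw [this, b_rec k 1 (by norm_num)]
  simp [c]; ring

lemma E3 (k : ℕ) : coeff (4 * k + 3) E = -4 * b k := by
  rw [coeff_E_pos _ (by omega), b_rec k 3 (by norm_num)]
  have : 4 * k + 3 - 1 = 4 * k + 2 := by omega
  rw [this, b_rec k 2 (by norm_num)]
  simp [c]; ring

lemma E4 (j : ℕ) (hj : j ≠ 0) : coeff (4 * j) E = b j + b (j - 1) := by
  rw [coeff_E_pos _ (by omega)]
  have h1 : 4 * j = 4 * j + 0 := by omega
  have h2 : 4 * j - 1 = 4 * (j - 1) + 3 := by omega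
  rw [h2, b_rec (j - 1) 3 (by norm_num), h1, b_rec j 0 (by norm_num)]
  simp [c]

lemma E41 (k : ℕ) : coeff (4 * (4 * k + 1)) E = -2 * b k := by
  rw [E4 _ (by omega), b_rec k 1 (by norm_num)]
  have : 4 * k + 1 - 1 = 4 * k + 0 := by omega
  rw [this, b_rec k 0 (by norm_num)]
  simp [c]; ring

lemma E42 (k : ℕ) : coeff (4 * (4 * k + 2)) E = 0 := by
  rw [E4 _ (by omega), b_rec k 2 (by norm_num)]
  have : 4 * k + 2 - 1 = 4 * k + 1 := by omega
  rw [this, b_rec k 1 (by norm_num)]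
  simp [c]

lemma E43 (k : ℕ) : coeff (4 * (4 * k + 3)) E = 2 * b k := by
  rw [E4 _ (by omega), b_rec k 3 (by norm_num)]
  have : 4 * k + 3 - 1 = 4 * k + 2 := by omega
  rw [this, b_rec k 2 (by norm_num)]
  simp [c]; ring

lemma E44 (i : ℕ) (hi : i ≠ 0) : coeff (4 * (4 * i)) E = coeff i E := by
  rw [E4 _ (by omega), coeff_E_pos i hi]
  have h1 : 4 * i = 4 * i + 0 := by omega
  have h2 : 4 * i - 1 = 4 * (i - 1) + 3 := by omega
  rw [h2, b_rec (i - 1) 3 (by norm_num), h1, b_rec i 0 (by norm_num)]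
  simp [c]; ring

/-- the 2-adic valuation -/
abbrev nu (n : ℕ) : ℕ := padicValNat 2 n

lemma nu_two_mul (n : ℕ) (hn : n ≠ 0) : nu (2 * n) = nu n + 1 := by
  have := Fact.mk Nat.prime_two
  unfold nu
  rw [padicValNat.mul (by norm_num) hn, padicValNat_self, add_comm]

lemma nu_odd (n : ℕ) (hn : n % 2 = 1) : nu n = 0 := by
  unfold nu
  exact padicValNat.eq_zero_of_not_dvd (by omega)

lemma nu_four_mul (n : ℕ) (hn : n ≠ 0) : nu (4 * n) = nu n + 2 := by
  have h : 4 * n = 2 * (2 * n) := by ring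
  rw [h, nu_two_mul _ (by omega), nu_two_mul n hn]

lemma nu_mod4 (n : ℕ) (hn : n % 4 = 2) : nu n = 1 := by
  obtain ⟨k, rfl⟩ : ∃ k, n = 2 * k := ⟨n / 2, by omega⟩
  rw [nu_two_mul k (by omega), nu_odd k (by omega)]

/-- values of the coefficients of `E` -/
theorem E_pattern (n : ℕ) (hn : n ≠ 0) :
    (nu n % 4 = 0 → coeff n E % 8 = 4) ∧ (nu n % 4 = 1 → coeff n E % 4 = 2) ∧
    (nu n % 4 = 2 → coeff n E % 4 = 2) ∧ (nu n % 4 = 3 → coeff n E = 0) := by
  induction n using Nat.strong_induction_on with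
  | _ n ih =>
    obtain ⟨k, r, hr, rfl⟩ : ∃ k r, r < 4 ∧ n = 4 * k + r :=
      ⟨n / 4, n % 4, Nat.mod_lt _ (by norm_num), by omega⟩
    have hb := b_odd k
    interval_cases r
    · -- n = 4 k
      rw [add_zero] at hn ⊢
      have hk : k ≠ 0 := by omega
      obtain ⟨l, s, hs, rfl⟩ : ∃ l s, s < 4 ∧ k = 4 * l + s :=
        ⟨k / 4, k % 4, Nat.mod_lt _ (by norm_num), by omega⟩
      have hbl := b_odd l
      rw [nu_four_mul _ hk]
      interval_cases s
      · rw [add_zero] at hk ⊢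
        have hl : l ≠ 0 := by omega
        rw [nu_four_mul _ hl, E44 l hl]
        have h := ih l (by omega) hl
        obtain ⟨h0, h1, h2, h3⟩ := h
        refine ⟨fun h => h0 (by omega), fun h => h1 (by omega), fun h => h2 (by omega),
          fun h => h3 (by omega)⟩
      · rw [nu_odd _ (by omega), E41]
        refine ⟨fun h => by omega, fun h => by omega, fun _ => by omega, fun h => by omega⟩
      · rw [nu_mod4 _ (by omega), E42]
        refine ⟨fun h => by omega, fun h => by omega, fun h => by omega, fun _ => rfl⟩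
      · rw [nu_odd _ (by omega), E43]
        refine ⟨fun h => by omega, fun h => by omega, fun _ => by omega, fun h => by omega⟩
    · rw [nu_odd _ (by omega), E1]
      refine ⟨fun _ => by omega, fun h => by omega, fun h => by omega, fun h => by omega⟩
    · rw [nu_mod4 _ (by omega), E2]
      refine ⟨fun h => by omega, fun _ => by omega, fun h => by omega, fun h => by omega⟩
    · rw [nu_odd _ (by omega), E3]
      refine ⟨fun _ => by omega, fun h => by omega, fun h => by omega, fun h => by omega⟩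

end Pool.Agent.Lib_helper92.Part4
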