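import Mathlib

/-!
Definitions for the automaticity of `φ₄(S_{4,m}(n))`.
-/

set_option autoImplicit false

namespace Pool.Agent.Lib_helper92.Part4

open PowerSeries

/-- The finite product `(1 - x) ^ m * ∏_{i < N} (1 - x ^ (k ^ i)) ^ (m * (k - 1))`. -/
noncomputable def den (k m N : ℕ) : PowerSeries ℤ :=
  (1 - X) ^ m * ∏ i ∈ Finset.range N, (1 - X ^ (k ^ i)) ^ (m * (k - 1))

/-- `S k m n` is the coefficient of `x ^ n` in
`1 / ((1 - x) ^ m * ∏_{i ≥ 0} (1 - x ^ (k ^ i)) ^ (m * (k - 1)))`.  For `k ≥ 2` only the factors with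
`k ^ i ≤ n` influence this coefficient, so the product is taken over `i ≤ n`. -/
noncomputable def S (k m n : ℕ) : ℤ := coeff n (invOfUnit (den k m (n + 1)) 1)

/-- `φ₄ N = max {s : 4 ^ s ∣ N}` -/
noncomputable def phi4 (N : ℤ) : ℕ := sSup {s : ℕ | (4 : ℤ) ^ s ∣ N}

/-- A sequence is 4-automatic if its 4-kernel is finite. -/
def Is4Automatic (e : ℕ → ℕ) : Prop :=
  {f : ℕ → ℕ | ∃ i j : ℕ, j < 4 ^ i ∧ f = fun n => e (4 ^ i * n + j)}.Finite

end Pool.Agent.Lib_helper92.Part4
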