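import Mathlib
import Pool.Agent.Lib_helper92.Part4

/-!
The square of `E` modulo 32.
-/

set_option autoImplicit false

namespace Pool.Agent.Lib_helper92.Part4

open PowerSeries Finset

/-- `(E - 1) / 2` -/
noncomputable def D : PowerSeries ℤ :=
  PowerSeries.mk fun n => if n = 0 then 0 else coeff n E / 2

lemma E_even (n : ℕ) (hn : n ≠ 0) : coeff n E % 2 = 0 := by
  rw [coeff_E_pos n hn]
  have h1 := b_odd n
  have h2 := b_odd (n - 1)
  omega

lemma coeff_two_mul (f : PowerSeries ℤ) (n : ℕ) : coeff n (2 * f) = 2 * coeff n f := by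
  have : (2 : PowerSeries ℤ) = PowerSeries.C (2 : ℤ) := rfl
  rw [this, PowerSeries.coeff_C_mul]

lemma E_D : E = 1 + 2 * D := by
  ext n
  rw [map_add, coeff_two_mul, D, coeff_mk, PowerSeries.coeff_one]
  by_cases hn : n = 0
  · subst hn
    simp [coeff_E_zero]
  · rw [if_neg hn, if_neg hn]
    have := E_even n hn
    omega

/-- `(E ^ 2 - 1) / 4` -/
noncomputable def K : PowerSeries ℤ := D + D ^ 2

lemma E_sq : E ^ 2 = 1 + 4 * K := by
  rw [E_D, K]; ring

/-- the series with coefficients `a * j + d` -/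
noncomputable def lin (a d : ℤ) : PowerSeries ℤ := PowerSeries.mk fun j => a * j + d

lemma lin_eq (a d : ℤ) : (1 - X) ^ 2 * lin a d = C d + C (a - d) * X := by
  have h : (1 - X) ^ 2 * lin a d = lin a d - 2 * (X * lin a d) + X * (X * lin a d) := by ring
  rw [h]
  ext n
  rw [map_add, map_sub, coeff_two_mul, map_add, PowerSeries.coeff_C_mul]
  rcases n with _ | n
  · simp [lin, PowerSeries.coeff_zero_X_mul]
  · rcases n with _ | n
    · rw [PowerSeries.coeff_succ_X_mul, PowerSeries.coeff_succ_X_mul, PowerSeries.coeff_zero_X_mul,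
        PowerSeries.coeff_C, PowerSeries.coeff_X, lin, coeff_mk, coeff_mk]
      simp
      ring
    · rw [PowerSeries.coeff_succ_X_mul, PowerSeries.coeff_succ_X_mul, PowerSeries.coeff_succ_X_mul,
        PowerSeries.coeff_C, PowerSeries.coeff_X, lin, coeff_mk, coeff_mk, coeff_mk]
      simp
      ring

/-- `R = ((1-x)^8 / (1-x^4)^2 - 1) / 4` -/
noncomputable def R : PowerSeries ℤ :=
  X ^ 0 * ex (lin 18 0) + X ^ 1 * ex (lin (-16) (-2)) + X ^ 2 * ex (lin 14 7) +
    X ^ 3 * ex (lin (-16) (-14))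

lemma coeff_R (k r : ℕ) (hr : r < 4) : coeff (4 * k + r) R =
    if r = 0 then 18 * (k : ℤ) else if r = 1 then -16 * k - 2 else if r = 2 then 14 * k + 7
      else -16 * k - 14 := by
  rw [R]
  simp only [map_add]
  rw [coeff_X_pow_mul_ex _ _ _ _ hr (by norm_num), coeff_X_pow_mul_ex _ _ _ _ hr (by norm_num),
    coeff_X_pow_mul_ex _ _ _ _ hr (by norm_num), coeff_X_pow_mul_ex _ _ _ _ hr (by norm_num)]
  simp only [lin, coeff_mk]
  interval_cases r <;> simp <;> ring

lemma ex_lin (a d : ℤ) : (1 - X ^ 4) ^ 2 * ex (lin a d) = C d + C (a - d) * X ^ 4 := by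
  have h : (1 - X ^ 4) ^ 2 * ex (lin a d) = ex ((1 - X) ^ 2 * lin a d) := by
    rw [map_mul, map_pow, map_sub, map_one]
    congr 3
    exact (PowerSeries.expand_X 4 (by norm_num)).symm
  rw [h, lin_eq, map_add, map_mul]
  have h1 : ex (C d) = C d := PowerSeries.expand_C 4 (by norm_num) d
  have h2 : ex (C (a - d)) = C (a - d) := PowerSeries.expand_C 4 (by norm_num) (a - d)
  have h3 : ex (X : PowerSeries ℤ) = X ^ 4 := PowerSeries.expand_X 4 (by norm_num)
  rw [h1, h2, h3]

lemma R_eq : (1 - X ^ 4) ^ 2 * (1 + 4 * R) = (1 - X) ^ 8 := by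
  have h : (1 - X ^ 4) ^ 2 * (1 + 4 * R) = (1 - X ^ 4) ^ 2 +
      4 * ((1 - X ^ 4) ^ 2 * ex (lin 18 0) + X * ((1 - X ^ 4) ^ 2 * ex (lin (-16) (-2))) +
        X ^ 2 * ((1 - X ^ 4) ^ 2 * ex (lin 14 7)) +
        X ^ 3 * ((1 - X ^ 4) ^ 2 * ex (lin (-16) (-14)))) := by
    rw [R]; ring
  rw [h, ex_lin, ex_lin, ex_lin, ex_lin]
  simp only [map_sub, map_neg, map_ofNat, map_zero]
  ring

lemma ex_E_sq : (ex E) ^ 2 = 1 + 4 * ex K := by
  rw [← map_pow, E_sq, map_add, map_one, map_mul]
  congr 2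
  exact map_ofNat ex 4

lemma one_sub_ne : (1 - X ^ 4 : PowerSeries ℤ) ^ 2 ≠ 0 := by
  intro h
  have h1 := congrArg (coeff 0) h
  simp at h1

lemma K_rec : K = R + ex K + 4 * (R * ex K) := by
  have h1 : (1 - X ^ 4) ^ 2 * (1 + 4 * K) = (1 - X ^ 4) ^ 2 * ((1 + 4 * R) * (1 + 4 * ex K)) := by
    rw [← mul_assoc, R_eq, ← ex_E_sq, ← E_sq]
    have := E_eq
    calc (1 - X ^ 4) ^ 2 * E ^ 2 = ((1 - X ^ 4) * E) ^ 2 := by ring
      _ = ((1 - X) ^ 4 * ex E) ^ 2 := by rw [this]
      _ = _ := by ring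
  have h2 := mul_left_cancel₀ one_sub_ne h1
  have h3 : (4 : PowerSeries ℤ) * K = 4 * (R + ex K + 4 * (R * ex K)) := by
    linear_combination h2
  have h4 : (4 : PowerSeries ℤ) ≠ 0 := by
    intro h
    have h1 := congrArg (constantCoeff (R := ℤ)) h
    rw [map_ofNat, map_zero] at h1
    norm_num at h1
  exact mul_left_cancel₀ h4 h3

lemma coeff_four_mul (f : PowerSeries ℤ) (n : ℕ) : coeff n (4 * f) = 4 * coeff n f := by
  have : (4 : PowerSeries ℤ) = PowerSeries.C (4 : ℤ) := rfl
  rw [this, PowerSeries.coeff_C_mul]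

lemma cross_even (n : ℕ) (hn : n % 4 ≠ 2) : (2 : ℤ) ∣ coeff n (R * ex K) := by
  rw [PowerSeries.coeff_mul]
  apply Finset.dvd_sum
  rintro ⟨i, j⟩ hij
  rw [Finset.HasAntidiagonal.mem_antidiagonal] at hij
  simp only at hij ⊢
  by_cases hj : 4 ∣ j
  · apply Dvd.dvd.mul_right
    obtain ⟨k, r, hr, rfl⟩ : ∃ k r, r < 4 ∧ i = 4 * k + r :=
      ⟨i / 4, i % 4, Nat.mod_lt _ (by norm_num), by omega⟩
    rw [coeff_R k r hr]
    have hr2 : r ≠ 2 := by omega
    interval_cases r
    · simp only [if_true]; omega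
    · simp; omega
    · omega
    · simp; omega
  · rw [coeff_ex, if_neg hj, mul_zero]
    exact dvd_zero 2

lemma K_coeff (n : ℕ) : coeff n K = coeff n R + coeff n (ex K) + 4 * coeff n (R * ex K) := by
  conv_lhs => rw [K_rec]
  rw [map_add, map_add, coeff_four_mul]

lemma K_zero : coeff 0 K = 0 := by
  have h := K_coeff 0
  rw [coeff_ex, if_pos (dvd_zero 4), PowerSeries.coeff_mul] at h
  have h0 : coeff 0 R = 0 := by
    have := coeff_R 0 0 (by norm_num)
    simpa using this
  simp [h0] at h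
  have h1 := congrArg (coeff 0) E_sq
  rw [map_add, coeff_four_mul] at h1
  have h2 := coeff_E_zero
  rw [PowerSeries.coeff_zero_eq_constantCoeff] at h2
  rw [PowerSeries.coeff_zero_eq_constantCoeff, map_pow, h2] at h1
  simp at h1
  rw [PowerSeries.coeff_zero_eq_constantCoeff]
  exact h1

/-- values of the coefficients of `K` -/
theorem K_pattern (n : ℕ) (hn : n ≠ 0) :
    (nu n % 2 = 1 → coeff n K % 2 = 1) ∧ (nu n = 0 → (coeff n K + 2 * n) % 8 = 0) ∧
    (nu n % 2 = 0 → nu n ≠ 0 → coeff n K % 8 = 0) := by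
  induction n using Nat.strong_induction_on with
  | _ n ih =>
    have hK := K_coeff n
    obtain ⟨k, r, hr, rfl⟩ : ∃ k r, r < 4 ∧ n = 4 * k + r :=
      ⟨n / 4, n % 4, Nat.mod_lt _ (by norm_num), by omega⟩
    rw [coeff_R k r hr, coeff_ex] at hK
    interval_cases r
    · rw [add_zero] at hn hK ⊢
      have hk : k ≠ 0 := by omega
      obtain ⟨t, ht⟩ := cross_even (4 * k) (by omega)
      rw [if_pos rfl, if_pos (dvd_mul_right 4 k), ht,
        Nat.mul_div_cancel_left k (by norm_num)] at hK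
      obtain ⟨h1, h2, h3⟩ := ih k (by omega) hk
      rw [nu_four_mul k hk]
      refine ⟨fun h => ?_, fun h => by omega, fun h _ => ?_⟩
      · have := h1 (by omega)
        omega
      · by_cases hv : nu k = 0
        · have := h2 hv
          omega
        · have h4 := h3 (by omega) hv
          have h5 : 4 ∣ k := by
            by_contra hcon
            have h6 : k % 4 = 1 ∨ k % 4 = 2 ∨ k % 4 = 3 := by omega
            rcases h6 with h6 | h6 | h6
            · exact hv (nu_odd k (by omega))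
            · have := nu_mod4 k h6
              omega
            · exact hv (nu_odd k (by omega))
          omega
    · rw [nu_odd _ (by omega)]
      obtain ⟨t, ht⟩ := cross_even (4 * k + 1) (by omega)
      rw [ht, if_neg (by omega : ¬ 4 ∣ 4 * k + 1)] at hK
      simp only [one_ne_zero, if_false, if_true] at hK
      refine ⟨fun h => by omega, fun _ => ?_, fun _ h => absurd rfl h⟩
      push_cast
      omega
    · rw [nu_mod4 _ (by omega)]
      rw [if_neg (by omega : ¬ 4 ∣ 4 * k + 2)] at hK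
      simp at hK
      refine ⟨fun _ => by omega, fun h => by omega, fun h => by omega⟩
    · rw [nu_odd _ (by omega)]
      obtain ⟨t, ht⟩ := cross_even (4 * k + 3) (by omega)
      rw [ht, if_neg (by omega : ¬ 4 ∣ 4 * k + 3)] at hK
      simp at hK
      refine ⟨fun h => by omega, fun _ => ?_, fun _ h => absurd rfl h⟩
      push_cast
      omega

end Pool.Agent.Lib_helper92.Part4
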