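import Mathlib
import Pool.Agent.Lib_helper92.Part4K

/-!
The powers of `F = 1 / E`.
-/

set_option autoImplicit false

namespace Pool.Agent.Lib_helper92.Part4

open PowerSeries Finset

/-- `F = 1 / E` -/
noncomputable def F : PowerSeries ℤ := invOfUnit E 1

lemma EF : E * F = 1 := by
  rw [F]
  apply PowerSeries.mul_invOfUnit
  have := coeff_E_zero
  rw [PowerSeries.coeff_zero_eq_constantCoeff] at this
  simpa using this

/-- `(F ^ 2 - 1) / 4` -/
noncomputable def L : PowerSeries ℤ := -K * F ^ 2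

lemma EF_sq : E ^ 2 * F ^ 2 = 1 := by rw [← mul_pow, EF, one_pow]

lemma F_sq : F ^ 2 = 1 + 4 * L := by
  have h1 := EF_sq
  have h2 := E_sq
  rw [L]
  linear_combination -(F ^ 2) * h2 + h1

lemma L_eq : L = -K - 4 * (K * L) := by
  have h : L = -K * F ^ 2 := rfl
  conv_lhs => rw [h, F_sq]
  ring

lemma L_eq' : L = -K + 4 * K ^ 2 + 16 * (K ^ 2 * L) := by
  have h := L_eq
  linear_combination (1 - 4 * K) * h

lemma coeff_nat_mul (a : ℕ) (f : PowerSeries ℤ) (n : ℕ) :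
    coeff n ((a : PowerSeries ℤ) * f) = a * coeff n f := by
  have : ((a : ℕ) : PowerSeries ℤ) = PowerSeries.C (a : ℤ) := by simp
  rw [this, PowerSeries.coeff_C_mul]

lemma coeff_16_mul (f : PowerSeries ℤ) (n : ℕ) : coeff n (16 * f) = 16 * coeff n f := by
  exact_mod_cast coeff_nat_mul 16 f n

lemma coeff_8_mul (f : PowerSeries ℤ) (n : ℕ) : coeff n (8 * f) = 8 * coeff n f := by
  exact_mod_cast coeff_nat_mul 8 f n

/-- squares modulo two -/
lemma sq_parity (f : PowerSeries ℤ) (n : ℕ) :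
    (2 : ℤ) ∣ coeff n (f ^ 2) - (if 2 ∣ n then coeff (n / 2) f else 0) := by
  refine (ZMod.intCast_eq_intCast_iff_dvd_sub _ _ 2).mp ?_
  symm
  rw [pow_two, PowerSeries.coeff_mul, Int.cast_sum]
  simp only [Int.cast_mul]
  rw [← Finset.sum_filter_add_sum_filter_not _ (fun p : ℕ × ℕ => p.1 = p.2)]
  have h2 : ∑ p ∈ (antidiagonal n).filter (fun p => ¬ p.1 = p.2),
      ((coeff p.1 f : ℤ) : ZMod 2) * ((coeff p.2 f : ℤ) : ZMod 2) = 0 := by
    apply Finset.sum_involution (fun p _ => p.swap)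
    · intro p _
      rw [Prod.fst_swap, Prod.snd_swap, mul_comm ((coeff p.2 f : ℤ) : ZMod 2)]
      exact CharTwo.add_self_eq_zero _
    · intro p hp _ h
      rw [Finset.mem_filter] at hp
      apply hp.2
      have := congrArg Prod.fst h
      rw [Prod.fst_swap] at this
      exact this.symm
    · intro p _
      exact Prod.swap_swap p
    · intro p hp
      rw [Finset.mem_filter, Finset.HasAntidiagonal.mem_antidiagonal] at hp ⊢
      rw [Prod.fst_swap, Prod.snd_swap]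
      exact ⟨by omega, fun h => hp.2 h.symm⟩
  rw [h2, add_zero]
  by_cases hn : 2 ∣ n
  · rw [if_pos hn]
    obtain ⟨k, rfl⟩ := hn
    have h3 : (antidiagonal (2 * k)).filter (fun p => p.1 = p.2) = {(k, k)} := by
      ext ⟨i, j⟩
      rw [Finset.mem_filter, Finset.HasAntidiagonal.mem_antidiagonal, Finset.mem_singleton,
        Prod.mk.injEq]
      constructor
      · rintro ⟨h1, h2⟩
        simp only at h1 h2
        omega
      · rintro ⟨rfl, rfl⟩
        exact ⟨by simp only; omega, rfl⟩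
    rw [h3, Finset.sum_singleton, Nat.mul_div_cancel_left k (by norm_num)]
    have h4 : ∀ x : ZMod 2, x * x = x := by decide
    exact h4 _
  · rw [if_neg hn]
    have h3 : (antidiagonal n).filter (fun p => p.1 = p.2) = ∅ := by
      ext ⟨i, j⟩
      rw [Finset.mem_filter, Finset.HasAntidiagonal.mem_antidiagonal]
      constructor
      · rintro ⟨h1, h2⟩
        simp only at h1 h2
        exfalso
        apply hn
        omega
      · intro h
        exact absurd h (Finset.notMem_empty _)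
    rw [h3, Finset.sum_empty]
    simp

lemma nu_half (n : ℕ) (hn : n ≠ 0) (h : nu n ≠ 0) : 2 ∣ n ∧ n / 2 ≠ 0 ∧ nu (n / 2) + 1 = nu n := by
  have h2 : 2 ∣ n := by
    by_contra hcon
    exact h (nu_odd n (by omega))
  obtain ⟨k, rfl⟩ := h2
  have hk : k ≠ 0 := by omega
  refine ⟨dvd_mul_right 2 k, by omega, ?_⟩
  rw [Nat.mul_div_cancel_left k (by norm_num), nu_two_mul k hk]

lemma nu_zero_odd (n : ℕ) (hn : n ≠ 0) (h : nu n = 0) : n % 2 = 1 := by
  by_contra hcon
  obtain ⟨k, rfl⟩ : ∃ k, n = 2 * k := ⟨n / 2, by omega⟩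
  rw [nu_two_mul k (by omega)] at h
  omega

lemma zero_coeff_odd_dvd (n : ℕ) (h : n % 2 = 1) : ¬ 2 ∣ n := by omega

/-- values of the coefficients of `L` -/
theorem L_pattern (n : ℕ) (hn : n ≠ 0) :
    (nu n % 2 = 1 → coeff n L % 2 = 1) ∧ (nu n = 0 → coeff n L % 4 = 2) ∧
    (nu n % 2 = 0 → nu n ≠ 0 → coeff n L % 8 = 4) := by
  have h1 : coeff n L = - coeff n K + 4 * coeff n (K ^ 2) + 16 * coeff n (K ^ 2 * L) := by
    conv_lhs => rw [L_eq']
    rw [map_add, map_add, map_neg, coeff_four_mul, coeff_16_mul]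
  obtain ⟨k1, k2, k3⟩ := K_pattern n hn
  obtain ⟨t, ht⟩ := sq_parity K n
  refine ⟨fun h => ?_, fun h => ?_, fun h h' => ?_⟩
  · have := k1 h
    omega
  · have h2 := k2 h
    have h3 := nu_zero_odd n hn h
    rw [if_neg (zero_coeff_odd_dvd n h3)] at ht
    omega
  · have h2 := k3 h h'
    obtain ⟨e1, e2, e3⟩ := nu_half n hn h'
    rw [if_pos e1] at ht
    have h4 := (K_pattern (n / 2) e2).1 (by omega)
    omega

/-- the pattern of the coefficients of `(F ^ (4 t) - 1) / 2 ^ (nu t + 3)` -/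
def Pat (Y : PowerSeries ℤ) : Prop :=
  ∀ n : ℕ, n ≠ 0 → (nu n % 2 = 1 → coeff n Y % 2 = 1) ∧ (nu n % 2 = 0 → coeff n Y % 4 = 2)

lemma pow_lemma (a Y : PowerSeries ℤ) (u : ℕ) :
    ∃ Z : PowerSeries ℤ, (1 + a * Y) ^ u = 1 + a * (u * Y + a * Z) := by
  induction u with
  | zero => exact ⟨0, by simp⟩
  | succ u ih =>
    obtain ⟨Z, hZ⟩ := ih
    refine ⟨Z + (u * Y + a * Z) * Y, ?_⟩
    rw [pow_succ, hZ]
    push_cast
    ring

/-- `F ^ 4 = 1 + 8 Y2` -/
noncomputable def Y2 : PowerSeries ℤ := L + 2 * L ^ 2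

lemma F_four : F ^ 4 = 1 + 8 * Y2 := by
  have h : F ^ 4 = (F ^ 2) ^ 2 := by ring
  rw [h, F_sq, Y2]
  ring

lemma Pat_Y2 : Pat Y2 := by
  intro n hn
  have h1 : coeff n Y2 = coeff n L + 2 * coeff n (L ^ 2) := by
    rw [Y2, map_add, coeff_two_mul]
  obtain ⟨l1, l2, l3⟩ := L_pattern n hn
  obtain ⟨t, ht⟩ := sq_parity L n
  refine ⟨fun h => ?_, fun h => ?_⟩
  · have := l1 h
    omega
  · by_cases h0 : nu n = 0
    · have h2 := l2 h0
      rw [if_neg (zero_coeff_odd_dvd n (nu_zero_odd n hn h0))] at ht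
      omega
    · have h2 := l3 h h0
      obtain ⟨e1, e2, e3⟩ := nu_half n hn h0
      rw [if_pos e1] at ht
      have h4 := (L_pattern (n / 2) e2).1 (by omega)
      omega

lemma Pat_of_eq (Y Z : PowerSeries ℤ) (u : ℕ) (hu : u % 2 = 1) (a : ℤ) (ha : 4 ∣ a)
    (hY : Pat Y) (W : PowerSeries ℤ) (hW : ∀ n, coeff n W = u * coeff n Y + a * coeff n Z) :
    Pat W := by
  intro n hn
  obtain ⟨h1, h2⟩ := hY n hn
  obtain ⟨b, rfl⟩ := ha
  rw [hW n]
  obtain ⟨v, rfl⟩ : ∃ v, u = 2 * v + 1 := ⟨u / 2, by omega⟩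
  push_cast
  refine ⟨fun h => ?_, fun h => ?_⟩
  · have := h1 h
    have e : (2 * (v : ℤ) + 1) * coeff n Y + 4 * b * coeff n Z =
      2 * (v * coeff n Y + 2 * (b * coeff n Z)) + coeff n Y := by ring
    omega
  · have h3 := h2 h
    obtain ⟨w, hw⟩ : ∃ w, coeff n Y = 4 * w + 2 := ⟨coeff n Y / 4, by omega⟩
    have e : (2 * (v : ℤ) + 1) * coeff n Y + 4 * b * coeff n Z =
      4 * (2 * v * w + v + b * coeff n Z) + coeff n Y := by rw [hw]; ring
    omega

theorem F_pow_four_mul (t : ℕ) (ht : t ≠ 0) :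
    ∃ Y : PowerSeries ℤ, F ^ (4 * t) = 1 + 2 ^ (nu t + 3) * Y ∧ Pat Y := by
  induction t using Nat.strong_induction_on with
  | _ t ih =>
    by_cases hodd : t % 2 = 1
    · obtain ⟨Z, hZ⟩ := pow_lemma 8 Y2 t
      refine ⟨t * Y2 + 8 * Z, ?_, ?_⟩
      · rw [pow_mul, F_four, hZ, nu_odd t hodd]
        norm_num
      · refine Pat_of_eq Y2 Z t hodd 8 (by norm_num) Pat_Y2 _ ?_
        intro n
        rw [map_add, coeff_nat_mul, coeff_8_mul]
    · obtain ⟨s, rfl⟩ : ∃ s, t = 2 * s := ⟨t / 2, by omega⟩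
      have hs : s ≠ 0 := by omega
      obtain ⟨Y, hY, hP⟩ := ih s (by omega) hs
      refine ⟨Y + 2 ^ (nu s + 2) * Y ^ 2, ?_, ?_⟩
      · have e : F ^ (4 * (2 * s)) = (F ^ (4 * s)) ^ 2 := by rw [← pow_mul]; congr 1; ring
        rw [e, hY, nu_two_mul s hs]
        ring
      · refine Pat_of_eq Y (Y ^ 2) 1 rfl (2 ^ (nu s + 2)) ?_ hP _ ?_
        · exact Dvd.intro_left (2 ^ nu s) (by ring)
        · intro n
          have e : (2 : PowerSeries ℤ) ^ (nu s + 2) = ((2 ^ (nu s + 2) : ℕ) : PowerSeries ℤ) := by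
            push_cast; rfl
          rw [map_add, e, coeff_nat_mul]
          push_cast
          ring

end Pool.Agent.Lib_helper92.Part4
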