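import Mathlib
import Pool.Agent.Lib_helper92.Part4L
import Pool.Agent.Lib_helper92.Part4Defs

/-!
The values `φ₄(S_{4,m}(n))` and their 4-kernel.
-/

set_option autoImplicit false

namespace Pool.Agent.Lib_helper92.Part4

open PowerSeries

/-! ### identification of the generating function -/

lemma prod_approx (N : ℕ) :
    (X : PowerSeries ℤ) ^ (4 ^ N) ∣ (∏ i ∈ Finset.range N, (1 - X ^ (4 ^ i))) ^ 3 - B := by
  induction N with
  | zero =>
    rw [pow_zero, pow_one, Finset.prod_range_zero, one_pow, PowerSeries.X_dvd_iff]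
    simp [B, b_zero]
  | succ N ih =>
    obtain ⟨H, hH⟩ := ih
    have h1 : ∏ i ∈ Finset.range (N + 1), (1 - (X : PowerSeries ℤ) ^ (4 ^ i)) =
        (1 - X) * ex (∏ i ∈ Finset.range N, (1 - X ^ (4 ^ i))) := by
      rw [Finset.prod_range_succ', pow_zero, pow_one, mul_comm, map_prod]
      congr 1
      apply Finset.prod_congr rfl
      intro i _
      rw [map_sub, map_one, map_pow]
      have h3 : ex (X : PowerSeries ℤ) = X ^ 4 := PowerSeries.expand_X 4 (by norm_num)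
      rw [h3, ← pow_mul, pow_succ']
    rw [h1]
    have h2 : ((1 - X) * ex (∏ i ∈ Finset.range N, (1 - X ^ (4 ^ i)))) ^ 3 - B =
        (1 - X) ^ 3 * ex ((∏ i ∈ Finset.range N, (1 - X ^ (4 ^ i))) ^ 3 - B) := by
      conv_lhs => rw [B_eq]
      rw [map_sub, map_pow]
      ring
    rw [h2, hH, map_mul, map_pow]
    have h3 : ex (X : PowerSeries ℤ) = X ^ 4 := PowerSeries.expand_X 4 (by norm_num)
    rw [h3, ← pow_mul, ← pow_succ']
    exact Dvd.intro_left ((1 - X) ^ 3 * ex H) (by ring)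

lemma den_approx (m N : ℕ) : (X : PowerSeries ℤ) ^ (4 ^ N) ∣ den 4 m N - E ^ m := by
  have h1 : den 4 m N - E ^ m = (1 - X) ^ m *
      (((∏ i ∈ Finset.range N, (1 - (X : PowerSeries ℤ) ^ (4 ^ i))) ^ 3) ^ m - B ^ m) := by
    rw [den, E, Finset.prod_pow, mul_pow]
    have : m * (4 - 1) = 3 * m := by ring
    rw [this, pow_mul]
    ring
  rw [h1]
  apply Dvd.dvd.mul_left
  exact (prod_approx N).trans (sub_dvd_pow_sub_pow _ _ m)

lemma den_const (k m N : ℕ) (hk : k ≠ 0) : constantCoeff (den k m N) = ((1 : ℤˣ) : ℤ) := by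
  rw [den, map_mul, map_prod]
  simp [hk]

lemma S_eq (m n : ℕ) : S 4 m n = coeff n (F ^ m) := by
  rw [S]
  set U := invOfUnit (den 4 m (n + 1)) 1 with hU
  have h1 : den 4 m (n + 1) * U = 1 := mul_invOfUnit _ 1 (den_const 4 m (n + 1) (by norm_num))
  have h2 : E ^ m * F ^ m = 1 := by rw [← mul_pow, EF, one_pow]
  have h3 : U - F ^ m = -(U * F ^ m) * (den 4 m (n + 1) - E ^ m) := by
    linear_combination (F ^ m) * h1 - U * h2
  have h4 : (X : PowerSeries ℤ) ^ (4 ^ (n + 1)) ∣ U - F ^ m := by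
    rw [h3]
    exact (den_approx m (n + 1)).mul_left _
  rw [PowerSeries.X_pow_dvd_iff] at h4
  have h5 : n < 4 ^ (n + 1) := lt_trans (Nat.lt_pow_self (by norm_num))
    (Nat.pow_lt_pow_right (by norm_num) (Nat.lt_succ_self n))
  have h6 := h4 n h5
  rw [map_sub, sub_eq_zero] at h6
  exact h6

/-! ### `φ₄` -/

lemma phi4_eq (a : ℕ) (w : ℤ) (hw : w % 2 = 1) : phi4 (2 ^ a * w) = a / 2 := by
  have h1 : {s : ℕ | (4 : ℤ) ^ s ∣ 2 ^ a * w} = Set.Iic (a / 2) := by
    ext s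
    rw [Set.mem_ofPred_eq, Set.mem_Iic]
    have h4 : (4 : ℤ) ^ s = 2 ^ (2 * s) := by rw [pow_mul]; norm_num
    rw [h4]
    constructor
    · intro h
      by_contra hcon
      have h5 : (2 : ℤ) ^ (a + 1) ∣ 2 ^ a * w := (pow_dvd_pow 2 (by omega)).trans h
      rw [pow_succ] at h5
      have h6 := (mul_dvd_mul_iff_left (pow_ne_zero a (by norm_num : (2 : ℤ) ≠ 0))).mp h5
      omega
    · intro h
      exact (pow_dvd_pow 2 (by omega)).mul_right w
  rw [phi4, h1]
  exact csSup_Iic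

lemma phi4_mod (a : ℕ) (x : ℤ) (hx : ∃ k : ℤ, x = 2 ^ a * (2 * k + 1)) : phi4 x = a / 2 := by
  obtain ⟨k, rfl⟩ := hx
  exact phi4_eq a _ (by omega)

lemma phi4_two (x : ℤ) (hx : x % 4 = 2) : phi4 x = 0 :=
  phi4_mod 1 x ⟨x / 4, by omega⟩

lemma phi4_four (x : ℤ) (hx : x % 8 = 4) : phi4 x = 1 :=
  phi4_mod 2 x ⟨x / 8, by omega⟩

lemma phi4_eight (x : ℤ) (hx : x % 16 = 8) : phi4 x = 1 :=
  phi4_mod 3 x ⟨x / 16, by omega⟩

lemma phi4_sixteen (x : ℤ) (hx : x % 32 = 16) : phi4 x = 2 :=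
  phi4_mod 4 x ⟨x / 32, by omega⟩

/-! ### the four cases -/

lemma case0 (t : ℕ) (ht : t ≠ 0) (n : ℕ) (hn : n ≠ 0) :
    phi4 (coeff n (F ^ (4 * t))) =
      if nu n % 2 = 1 then (nu t + 3) / 2 else (nu t + 4) / 2 := by
  obtain ⟨Y, hY, hP⟩ := F_pow_four_mul t ht
  obtain ⟨h1, h2⟩ := hP n hn
  have e : (2 : PowerSeries ℤ) ^ (nu t + 3) = ((2 ^ (nu t + 3) : ℕ) : PowerSeries ℤ) := by
    push_cast; rfl
  rw [hY, map_add, PowerSeries.coeff_one, if_neg hn, zero_add, e, coeff_nat_mul]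
  push_cast
  by_cases h : nu n % 2 = 1
  · rw [if_pos h]
    exact phi4_eq _ _ (h1 h)
  · rw [if_neg h]
    have h3 := h2 (by omega)
    apply phi4_mod
    exact ⟨coeff n Y / 4, by
      have : coeff n Y = 2 * (2 * (coeff n Y / 4) + 1) := by omega
      conv_lhs => rw [this]
      ring⟩

lemma F_four_mul_mod (t : ℕ) : ∃ Z : PowerSeries ℤ, F ^ (4 * t) = 1 + 8 * Z := by
  obtain ⟨Z, hZ⟩ := pow_lemma 8 Y2 t
  exact ⟨_, by rw [pow_mul, F_four, hZ]⟩

lemma case1 (t : ℕ) (n : ℕ) (hn : n ≠ 0) :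
    phi4 (coeff n (F ^ (4 * t + 1))) = if nu n % 4 = 0 ∨ nu n % 4 = 3 then 1 else 0 := by
  obtain ⟨Z, hZ⟩ := F_four_mul_mod t
  have hF : F = E + 4 * L + 8 * (D * L) := by
    have h1 : F = E * F ^ 2 := by
      have := EF
      linear_combination (-F) * this
    rw [h1, F_sq]
    conv_lhs => rw [E_D]
    conv_rhs => rw [E_D]
    ring
  have h1 : F ^ (4 * t + 1) = E + 4 * L + 8 * (D * L + Z * F) := by
    rw [pow_succ, hZ]
    linear_combination hF
  have h2 : coeff n (F ^ (4 * t + 1)) = coeff n E + 4 * coeff n L +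
      8 * coeff n (D * L + Z * F) := by
    rw [h1, map_add, map_add, coeff_four_mul, coeff_8_mul]
  obtain ⟨e0, e1, e2, e3⟩ := E_pattern n hn
  obtain ⟨l1, l2, l3⟩ := L_pattern n hn
  have h4 : nu n % 4 = 0 ∨ nu n % 4 = 1 ∨ nu n % 4 = 2 ∨ nu n % 4 = 3 := by omega
  rcases h4 with h | h | h | h
  · rw [if_pos (Or.inl h)]
    apply phi4_four
    have := e0 h
    by_cases h0 : nu n = 0
    · have := l2 h0
      omega
    · have := l3 (by omega) h0
      omega
  · rw [if_neg (by omega)]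
    apply phi4_two
    have := e1 h
    omega
  · rw [if_neg (by omega)]
    apply phi4_two
    have := e2 h
    omega
  · rw [if_pos (Or.inr h)]
    apply phi4_four
    have := e3 h
    have := l1 (by omega)
    omega

lemma case3 (t : ℕ) (n : ℕ) (hn : n ≠ 0) :
    phi4 (coeff n (F ^ (4 * t + 3))) =
      if nu n % 4 = 0 then 1 else if nu n % 4 = 3 then (nu (t + 1) + 3) / 2 else 0 := by
  obtain ⟨Y, hY, hP⟩ := F_pow_four_mul (t + 1) (by omega)
  have h1 : F ^ (4 * t + 3) = E + 2 ^ (nu (t + 1) + 3) * (Y + 2 * (D * Y)) := by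
    have h : F ^ (4 * t + 3) = E * F ^ (4 * (t + 1)) := by
      have h2 : F ^ (4 * (t + 1)) = F * F ^ (4 * t + 3) := by
        rw [← pow_succ']
        congr 1
      rw [h2, ← mul_assoc, EF, one_mul]
    rw [h, hY]
    conv_lhs => rw [E_D]
    conv_rhs => rw [E_D]
    ring
  have e : (2 : PowerSeries ℤ) ^ (nu (t + 1) + 3) =
      ((2 ^ (nu (t + 1) + 3) : ℕ) : PowerSeries ℤ) := by
    push_cast; rfl
  have h2 : coeff n (F ^ (4 * t + 3)) = coeff n E + 2 ^ (nu (t + 1) + 3) *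
      (coeff n Y + 2 * coeff n (D * Y)) := by
    rw [h1, map_add, e, coeff_nat_mul, map_add, coeff_two_mul]
    push_cast
    rfl
  obtain ⟨e0, e1, e2, e3⟩ := E_pattern n hn
  obtain ⟨p1, p2⟩ := hP n hn
  obtain ⟨w, hw⟩ : ∃ w : ℤ, 2 ^ (nu (t + 1) + 3) * (coeff n Y + 2 * coeff n (D * Y)) = 8 * w :=
    ⟨2 ^ nu (t + 1) * (coeff n Y + 2 * coeff n (D * Y)), by ring⟩
  have h4 : nu n % 4 = 0 ∨ nu n % 4 = 1 ∨ nu n % 4 = 2 ∨ nu n % 4 = 3 := by omega
  rcases h4 with h | h | h | h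
  · rw [if_pos h]
    apply phi4_four
    have := e0 h
    omega
  · rw [if_neg (by omega), if_neg (by omega)]
    apply phi4_two
    have := e1 h
    omega
  · rw [if_neg (by omega), if_neg (by omega)]
    apply phi4_two
    have := e2 h
    omega
  · rw [if_neg (by omega), if_pos h, h2, e3 h, zero_add]
    apply phi4_eq
    have := p1 (by omega)
    omega

lemma case2 (t : ℕ) (n : ℕ) (hn : n ≠ 0) :
    phi4 (coeff n (F ^ (8 * t + 2))) =
      if nu n = 0 then 1 else if nu n % 2 = 1 then 1 else 2 := by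
  obtain ⟨Z, hZ⟩ := pow_lemma 16 (Y2 + 4 * Y2 ^ 2) t
  have h8 : F ^ 8 = 1 + 16 * (Y2 + 4 * Y2 ^ 2) := by
    have h : F ^ 8 = (F ^ 4) ^ 2 := by ring
    rw [h, F_four]; ring
  obtain ⟨Q, hQ⟩ : ∃ Q : PowerSeries ℤ, Q = t * Y2 ^ 2 + 4 * Z +
      L * (t * (Y2 + 4 * Y2 ^ 2) + 16 * Z) := ⟨_, rfl⟩
  have h1 : F ^ (8 * t + 2) = 1 + 4 * L + 16 * (t * Y2 + 4 * Q) := by
    rw [pow_add, pow_mul, h8, hZ, F_sq, hQ]
    ring
  have h2 : coeff n (F ^ (8 * t + 2)) = 4 * coeff n L + 16 * (t * coeff n Y2 +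
      4 * coeff n Q) := by
    rw [h1, map_add, map_add, coeff_four_mul, coeff_16_mul, PowerSeries.coeff_one, if_neg hn,
      zero_add, map_add, coeff_four_mul, coeff_nat_mul]
  obtain ⟨l1, l2, l3⟩ := L_pattern n hn
  obtain ⟨y1, y2⟩ := Pat_Y2 n hn
  rw [h2]
  generalize coeff n Q = q
  by_cases h0 : nu n = 0
  · rw [if_pos h0]
    apply phi4_eight
    have := l2 h0
    generalize (t : ℤ) * coeff n Y2 = p
    omega
  · rw [if_neg h0]
    by_cases h : nu n % 2 = 1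
    · rw [if_pos h]
      apply phi4_four
      have := l1 h
      generalize (t : ℤ) * coeff n Y2 = p
      omega
    · rw [if_neg h]
      apply phi4_sixteen
      have := l3 (by omega) h0
      have h5 := y2 (by omega)
      obtain ⟨p, hp⟩ : ∃ p, (t : ℤ) * coeff n Y2 = 2 * p := by
        refine ⟨t * (coeff n Y2 / 2), ?_⟩
        have : coeff n Y2 = 2 * (coeff n Y2 / 2) := by omega
        conv_lhs => rw [this]
        ring
      rw [hp]
      omega

/-- the value of `φ₄(S_{4,m}(n))` is a function of the 2-adic valuation of `n`, and this function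
is periodic from `1` on -/
theorem exists_pattern (m : ℕ) (hm : 0 < m) (h6 : m % 8 ≠ 6) :
    ∃ g : ℕ → ℕ, (∀ v, 1 ≤ v → g (v + 4) = g v) ∧
      ∀ n, n ≠ 0 → phi4 (S 4 m n) = g (nu n) := by
  have h8 : m % 8 = 0 ∨ m % 8 = 4 ∨ m % 8 = 1 ∨ m % 8 = 5 ∨ m % 8 = 2 ∨ m % 8 = 3 ∨
    m % 8 = 7 := by omega
  rcases h8 with h | h | h | h | h | h | h
  · obtain ⟨t, rfl⟩ : ∃ t, m = 4 * t := ⟨m / 4, by omega⟩
    refine ⟨fun v => if v % 2 = 1 then (nu t + 3) / 2 else (nu t + 4) / 2, ?_, ?_⟩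
    · intro v _
      have : (v + 4) % 2 = v % 2 := by omega
      simp only [this]
    · intro n hn
      rw [S_eq, case0 t (by omega) n hn]
  · obtain ⟨t, rfl⟩ : ∃ t, m = 4 * t := ⟨m / 4, by omega⟩
    refine ⟨fun v => if v % 2 = 1 then (nu t + 3) / 2 else (nu t + 4) / 2, ?_, ?_⟩
    · intro v _
      have : (v + 4) % 2 = v % 2 := by omega
      simp only [this]
    · intro n hn
      rw [S_eq, case0 t (by omega) n hn]
  · obtain ⟨t, rfl⟩ : ∃ t, m = 4 * t + 1 := ⟨m / 4, by omega⟩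
    refine ⟨fun v => if v % 4 = 0 ∨ v % 4 = 3 then 1 else 0, ?_, ?_⟩
    · intro v _
      have : (v + 4) % 4 = v % 4 := by omega
      simp only [this]
    · intro n hn
      rw [S_eq, case1 t n hn]
  · obtain ⟨t, rfl⟩ : ∃ t, m = 4 * t + 1 := ⟨m / 4, by omega⟩
    refine ⟨fun v => if v % 4 = 0 ∨ v % 4 = 3 then 1 else 0, ?_, ?_⟩
    · intro v _
      have : (v + 4) % 4 = v % 4 := by omega
      simp only [this]
    · intro n hn
      rw [S_eq, case1 t n hn]
  · obtain ⟨t, rfl⟩ : ∃ t, m = 8 * t + 2 := ⟨m / 8, by omega⟩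
    refine ⟨fun v => if v = 0 then 1 else if v % 2 = 1 then 1 else 2, ?_, ?_⟩
    · intro v hv
      have h1 : (v + 4) % 2 = v % 2 := by omega
      have h2 : v + 4 ≠ 0 := by omega
      have h3 : v ≠ 0 := by omega
      simp only [h1, h2, h3, if_false]
    · intro n hn
      rw [S_eq, case2 t n hn]
  · obtain ⟨t, rfl⟩ : ∃ t, m = 4 * t + 3 := ⟨m / 4, by omega⟩
    refine ⟨fun v => if v % 4 = 0 then 1 else if v % 4 = 3 then (nu (t + 1) + 3) / 2 else 0,
      ?_, ?_⟩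
    · intro v _
      have : (v + 4) % 4 = v % 4 := by omega
      simp only [this]
    · intro n hn
      rw [S_eq, case3 t n hn]
  · obtain ⟨t, rfl⟩ : ∃ t, m = 4 * t + 3 := ⟨m / 4, by omega⟩
    refine ⟨fun v => if v % 4 = 0 then 1 else if v % 4 = 3 then (nu (t + 1) + 3) / 2 else 0,
      ?_, ?_⟩
    · intro v _
      have : (v + 4) % 4 = v % 4 := by omega
      simp only [this]
    · intro n hn
      rw [S_eq, case3 t n hn]

/-! ### the kernel -/

lemma nu_pow_mul (v x : ℕ) (hx : x ≠ 0) : nu (2 ^ v * x) = v + nu x := by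
  induction v with
  | zero => simp
  | succ v ih =>
    have : 2 ^ (v + 1) * x = 2 * (2 ^ v * x) := by ring
    rw [this, nu_two_mul _ (by positivity), ih]
    ring

lemma nu_add (i j n : ℕ) (hj : j ≠ 0) (hji : j < 4 ^ i) : nu (4 ^ i * n + j) = nu j := by
  obtain ⟨v, w, hw, rfl⟩ := Nat.exists_eq_two_pow_mul_odd hj
  have hw' : w % 2 = 1 := Nat.odd_iff.mp hw
  have h4 : 4 ^ i = 2 ^ (2 * i) := by rw [pow_mul]; norm_num
  have hv : v < 2 * i := by
    by_contra hcon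
    have h1 : 2 ^ (2 * i) ≤ 2 ^ v := Nat.pow_le_pow_right (by norm_num) (by omega)
    have h2 : 2 ^ v * 1 ≤ 2 ^ v * w := Nat.mul_le_mul_left _ (by omega)
    omega
  obtain ⟨d, hd⟩ : ∃ d, 2 * i = v + (d + 1) := ⟨2 * i - v - 1, by omega⟩
  have h5 : 4 ^ i * n + 2 ^ v * w = 2 ^ v * (2 * (2 ^ d * n) + w) := by
    rw [h4, hd, pow_add, pow_succ]; ring
  rw [h5, nu_pow_mul v _ (by omega), nu_pow_mul v w (by omega), nu_odd w hw',
    nu_odd _ (by omega)]

theorem automatic_of_pattern (e g : ℕ → ℕ) (hg : ∀ v, 1 ≤ v → g (v + 4) = g v)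
    (he : ∀ n, n ≠ 0 → e n = g (nu n)) : Is4Automatic e := by
  have hfour : ∀ i n, n ≠ 0 → nu (4 ^ i * n) = 2 * i + nu n := by
    intro i n hn
    have h4 : 4 ^ i = 2 ^ (2 * i) := by rw [pow_mul]; norm_num
    rw [h4, nu_pow_mul _ n hn]
  -- the sequences with `j = 0`
  have h0 : ∀ i : ℕ, ∃ i' : Fin 3, (fun n => e (4 ^ i * n)) = fun n => e (4 ^ (i' : ℕ) * n) := by
    intro i
    induction i using Nat.strong_induction_on with
    | _ i ih =>
      by_cases hi : i < 3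
      · exact ⟨⟨i, hi⟩, rfl⟩
      · obtain ⟨i', hi'⟩ := ih (i - 2) (by omega)
        refine ⟨i', ?_⟩
        rw [← hi']
        funext n
        by_cases hn : n = 0
        · subst hn; simp
        · rw [he _ (by positivity), he _ (by positivity), hfour _ _ hn, hfour _ _ hn]
          have h1 : 2 * i + nu n = 2 * (i - 2) + nu n + 4 := by omega
          rw [h1, hg _ (by omega)]
  -- the values of `g`
  have hval : ∀ v : ℕ, ∃ v' : Fin 5, g v = g v' := by
    intro v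
    induction v using Nat.strong_induction_on with
    | _ v ih =>
      by_cases hv : v < 5
      · exact ⟨⟨v, hv⟩, rfl⟩
      · obtain ⟨v', hv'⟩ := ih (v - 4) (by omega)
        refine ⟨v', ?_⟩
        rw [← hv', ← hg (v - 4) (by omega)]
        congr 1
        omega
  have hsub : {f : ℕ → ℕ | ∃ i j : ℕ, j < 4 ^ i ∧ f = fun n => e (4 ^ i * n + j)} ⊆
      Set.range (fun (i' : Fin 3) (n : ℕ) => e (4 ^ (i' : ℕ) * n)) ∪
        Set.range (fun (v' : Fin 5) (_ : ℕ) => g v') := by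
    rintro f ⟨i, j, hj, rfl⟩
    by_cases hj0 : j = 0
    · left
      subst hj0
      obtain ⟨i', hi'⟩ := h0 i
      exact ⟨i', hi'.symm⟩
    · right
      obtain ⟨v', hv'⟩ := hval (nu j)
      refine ⟨v', ?_⟩
      funext n
      rw [he _ (by omega), nu_add i j n hj0 hj, hv']
  exact ((Set.finite_range _).union (Set.finite_range _)).subset hsub

end Pool.Agent.Lib_helper92.Part4
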