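import Mathlib
import Pool.Agent.Lib_helper92.Proj

/-!
Countable decompositions into sets of small local diameter.
-/

set_option autoImplicit false

namespace Pool.Agent.Lib_helper92.CpK

open Set Topology Cardinal

/-- `X` has a countable decomposition into sets of small local norm diameter with respect to the
pointwise topology. -/
def SLD {Q : Type} [TopologicalSpace Q] [CompactSpace Q] (X : Set C(Q, ℝ)) : Prop :=
  ∀ ε : ℝ, 0 < ε → ∃ lab : C(Q, ℝ) → ℕ, ∀ f ∈ X, ∃ V : Set (Q → ℝ), IsOpen V ∧ ⇑f ∈ V ∧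
    ∀ g ∈ X, ⇑g ∈ V → lab g = lab f → ‖f - g‖ ≤ ε

lemma SLD_of_separable {Q : Type} [TopologicalSpace Q] [CompactSpace Q] (X : Set C(Q, ℝ))
    (hX : TopologicalSpace.IsSeparable X) : SLD X := by
  intro ε hε
  obtain ⟨c, hc, hcX⟩ := hX
  classical
  have hc' := hc.to_subtype
  have h1 : ∀ f : C(Q, ℝ), ∃ o : Option c, f ∈ X → ∃ g : c, o = some g ∧ dist f g < ε / 2 := by
    intro f
    by_cases hf : f ∈ X
    · obtain ⟨g, hg, hfg⟩ := Metric.mem_closure_iff.mp (hcX hf) (ε / 2) (by positivity)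
      exact ⟨some ⟨g, hg⟩, fun _ => ⟨⟨g, hg⟩, rfl, hfg⟩⟩
    · exact ⟨none, fun h => absurd h hf⟩
  choose o ho using h1
  obtain ⟨enc, henc⟩ := exists_injective_nat (Option c)
  refine ⟨fun f => enc (o f), fun f hf => ⟨Set.univ, isOpen_univ, trivial, fun g hg _ h => ?_⟩⟩
  obtain ⟨p, hp1, hp2⟩ := ho f hf
  obtain ⟨q, hq1, hq2⟩ := ho g hg
  have h2 := henc h
  rw [hp1, hq1, Option.some_inj] at h2
  rw [h2] at hq2
  rw [← dist_eq_norm]
  have h3 := dist_triangle_right f g (p : C(Q, ℝ))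
  linarith

lemma eq_of_card_lt {J : Set Ordinal.{0}} (hJ : J.Finite) {γ γ' : Ordinal.{0}} (h : γ ∈ J)
    (h' : γ' ∈ J) (hc : Set.ncard {α ∈ J | α < γ} = Set.ncard {α ∈ J | α < γ'}) : γ = γ' := by
  have key : ∀ a b : Ordinal.{0}, a ∈ J → a < b →
      Set.ncard {α ∈ J | α < a} < Set.ncard {α ∈ J | α < b} := by
    intro a b ha hab
    apply Set.ncard_lt_ncard _ (hJ.subset (Set.sep_subset _ _))
    refine ⟨fun x hx => ⟨hx.1, hx.2.trans hab⟩, fun hcon => ?_⟩
    have : a ∈ {α ∈ J | α < a} := hcon ⟨ha, hab⟩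
    exact lt_irrefl _ this.2
  rcases lt_trichotomy γ γ' with h1 | h1 | h1
  · have := key _ _ h h1
    omega
  · exact h1
  · have := key _ _ h' h1
    omega

namespace Sys

variable {L Q : Type} [TopologicalSpace L] [TopologicalSpace Q] (S : Sys L Q) [CompactSpace Q]

lemma separable_of_countable {A : Set Q} (hA : S.Cl A) (hc : A.Countable) :
    TopologicalSpace.IsSeparable {f : C(Q, ℝ) | S.P hA f = f} := by
  have hpc := (S.pts_countable hc).to_subtype
  let ρ : Q → (S.pts A → ℝ) := fun q y => S.ev q y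
  have hρ : Continuous ρ := by
    apply continuous_pi
    intro y
    exact (continuous_apply (y : L)).comp S.ev_cont
  let Z := Set.range ρ
  have hZ : CompactSpace Z := isCompact_iff_compactSpace.mp (isCompact_range hρ)
  let ρ' : C(Q, Z) := ⟨Set.rangeFactorization ρ, hρ.subtype_mk _⟩
  have hq : IsQuotientMap ρ' := by
    apply IsQuotientMap.of_surjective_continuous ?_ ρ'.continuous
    exact Set.rangeFactorization_surjective
  have hsub : {f : C(Q, ℝ) | S.P hA f = f} ⊆ Set.range (fun h : C(Z, ℝ) => h.comp ρ') := by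
    intro f hf
    have hfac : Function.FactorsThrough f ρ' := by
      intro p q hpq
      have hpq' : ρ p = ρ q := congrArg Subtype.val hpq
      have hr : S.r hA p = S.r hA q := by
        apply S.ev_inj
        funext x
        rw [S.r_spec, S.r_spec]
        exact congrFun hpq' ⟨S.yy A x, S.yy_mem A x⟩
      have h1 : f p = f (S.r hA p) := by
        have := congrArg (fun g : C(Q, ℝ) => g p) hf
        exact this.symm
      have h2 : f q = f (S.r hA q) := by
        have := congrArg (fun g : C(Q, ℝ) => g q) hf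
        exact this.symm
      rw [h1, h2, hr]
    refine ⟨hq.lift f hfac, ?_⟩
    exact hq.lift_comp f hfac
  refine TopologicalSpace.IsSeparable.mono ?_ hsub
  apply TopologicalSpace.isSeparable_range
  exact ContinuousMap.continuous_precomp ρ'

/-- the jump set of `f` along a chain -/
def jumps (PP : Ordinal.{0} → C(Q, ℝ) → C(Q, ℝ)) (η : ℝ) (f : C(Q, ℝ)) : Set Ordinal.{0} :=
  {α | η < ‖PP (α + 1) f - PP α f‖}

omit [TopologicalSpace L] in
lemma jumps_finite (PP : Ordinal.{0} → C(Q, ℝ) → C(Q, ℝ)) (κ : Ordinal.{0}) (f : C(Q, ℝ))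
    (hconst : ∀ α, κ ≤ α → PP (α + 1) f = PP α f)
    (hlim : ∀ l : Ordinal.{0}, Order.IsSuccLimit l → ∀ ε : ℝ, 0 < ε → ∃ β < l, ∀ α, β ≤ α →
      α < l → ‖PP α f - PP l f‖ ≤ ε) (η : ℝ) (hη : 0 < η) : (jumps PP η f).Finite := by
  have key : ∀ l : Ordinal.{0}, (jumps PP η f ∩ Set.Iio l).Finite := by
    intro l
    induction l using Ordinal.limitRecOn with
    | zero =>
      have : jumps PP η f ∩ Set.Iio 0 = ∅ := by
        ext x
        simp
      rw [this]; exact Set.finite_empty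
    | add_one l ih =>
      refine (ih.union (Set.finite_singleton l)).subset ?_
      rintro x ⟨hx1, hx2⟩
      rw [Set.mem_Iio, Order.lt_add_one_iff] at hx2
      rcases hx2.lt_or_eq with h | h
      · left; exact ⟨hx1, h⟩
      · right; exact h
    | limit l hl ih =>
      obtain ⟨β, hβ, hβ'⟩ := hlim l hl (η / 2) (by positivity)
      refine (ih β hβ).subset ?_
      rintro x ⟨hx1, hx2⟩
      refine ⟨hx1, ?_⟩
      by_contra hcon
      have hβx : β ≤ x := not_lt.mp hcon
      have h1 := hβ' x hβx hx2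
      have h2 := hβ' (x + 1) (hβx.trans (lt_add_one x).le) (hl.add_one_lt hx2)
      have h3 : ‖PP (x + 1) f - PP x f‖ ≤ η := by
        have : PP (x + 1) f - PP x f = (PP (x + 1) f - PP l f) - (PP x f - PP l f) := by abel
        rw [this]
        refine (norm_sub_le _ _).trans ?_
        linarith
      have h4 : η < ‖PP (x + 1) f - PP x f‖ := hx1
      linarith
  refine (key κ).subset ?_
  intro x hx
  refine ⟨hx, ?_⟩
  by_contra hcon
  have h1 : κ ≤ x := not_lt.mp hcon
  have h2 : η < ‖PP (x + 1) f - PP x f‖ := hx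
  rw [hconst x h1, sub_self, norm_zero] at h2
  linarith

omit [TopologicalSpace L] in
/-- the last big gap of `f` along a chain -/
lemma exists_gap (PP : Ordinal.{0} → C(Q, ℝ) → C(Q, ℝ)) (κ : Ordinal.{0}) (f : C(Q, ℝ))
    (hend : ∀ α, κ ≤ α → PP α f = f)
    (hlim : ∀ l : Ordinal.{0}, Order.IsSuccLimit l → ∀ ε : ℝ, 0 < ε → ∃ β < l, ∀ α, β ≤ α →
      α < l → ‖PP α f - PP l f‖ ≤ ε) (δ : ℕ → ℝ) (hδ : StrictMono δ) (hδ0 : 0 < δ 0) (ε : ℝ)
    (hδε : ∀ n, δ n ≤ ε) (h0 : ¬ ‖f - PP 0 f‖ ≤ ε) :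
    ∃ (n : ℕ) (γ : Ordinal.{0}), γ < κ ∧ δ (n + 1) < ‖f - PP γ f‖ ∧
      ∀ γ', γ < γ' → ‖f - PP γ' f‖ ≤ δ n := by
  have hpos : ∀ n, 0 < δ n := fun n => lt_of_lt_of_le hδ0 (hδ.monotone (Nat.zero_le n))
  let T : ℕ → Set Ordinal.{0} := fun n => {β | ∀ γ, β ≤ γ → ‖f - PP γ f‖ ≤ δ n}
  have hT : ∀ n, (T n).Nonempty := fun n => ⟨κ, fun γ hγ => by
    rw [hend γ hγ, sub_self, norm_zero]; exact (hpos n).le⟩
  let β : ℕ → Ordinal.{0} := fun n => sInf (T n)
  have hβ : ∀ n, β n ∈ T n := fun n => csInf_mem (hT n)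
  have hanti : ∀ n, β (n + 1) ≤ β n := by
    intro n
    apply csInf_le'
    intro γ hγ
    exact (hβ n γ hγ).trans (hδ.monotone (Nat.le_succ n))
  obtain ⟨n, hn⟩ : ∃ n, β (n + 1) = β n := by
    by_contra hcon
    push Not at hcon
    exact not_strictAnti_of_wellFoundedLT β (strictAnti_nat_of_succ_lt
      (fun n => lt_of_le_of_ne (hanti n) (hcon n)))
  refine ⟨n, ?_⟩
  have hβn := hβ n
  rcases Ordinal.zero_or_succ_or_isSuccLimit (β n) with h | ⟨γ, h⟩ | h
  · exfalso
    apply h0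
    exact (hβn 0 (by rw [h])).trans (hδε n)
  · have hlt : γ < β (n + 1) := by rw [hn, ← h]; exact lt_add_one γ
    have hnot : γ ∉ T (n + 1) := notMem_of_lt_csInf' hlt
    have hgt : ∀ γ', γ < γ' → ‖f - PP γ' f‖ ≤ δ n := by
      intro γ' hγ'
      apply hβn
      rw [← h]
      exact Order.add_one_le_of_lt hγ'
    have hbig : δ (n + 1) < ‖f - PP γ f‖ := by
      by_contra hcon
      apply hnot
      intro γ' hγ'
      rcases hγ'.eq_or_lt with h1 | h1
      · rw [← h1]; exact not_lt.mp hcon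
      · exact (hgt γ' h1).trans (hδ.monotone (Nat.le_succ n))
    refine ⟨γ, ?_, hbig, hgt⟩
    by_contra hcon
    rw [hend γ (not_lt.mp hcon), sub_self, norm_zero] at hbig
    exact absurd hbig (not_lt.mpr (hpos _).le)
  · exfalso
    obtain ⟨β', hβ', hβ''⟩ := hlim (β n) h (δ (n + 1) - δ n) (sub_pos.mpr (hδ (Nat.lt_succ_self n)))
    have hmem : β' ∈ T (n + 1) := by
      intro α hα
      rcases lt_or_ge α (β n) with h1 | h1
      · have h2 := hβ'' α hα h1
        have h3 := hβn (β n) le_rfl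
        have h4 : f - PP α f = (f - PP (β n) f) - (PP α f - PP (β n) f) := by abel
        rw [h4]
        refine (norm_sub_le _ _).trans ?_
        linarith
      · exact (hβn α h1).trans (hδ.monotone (Nat.le_succ n))
    have h5 : β (n + 1) ≤ β' := csInf_le' hmem
    rw [hn] at h5
    exact absurd hβ' (not_lt.mpr h5)

end Sys

end Pool.Agent.Lib_helper92.CpK
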