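import Mathlib
import Pool.Agent.Lib_helper92.SLDMain

/-!
From a countable decomposition into sets of small local diameter to hereditary weak
theta-refinability.
-/

set_option autoImplicit false

namespace Pool.Agent.Lib_helper92.CpK

open Set Topology

theorem refine_of_SLD {Q : Type} [TopologicalSpace Q] [CompactSpace Q]
    (h : SLD (Set.univ : Set C(Q, ℝ)))
    (Y : Set {g : Q → ℝ // Continuous g}) (𝒰 : Set (Set Y)) (hU : ∀ U ∈ 𝒰, IsOpen U)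
    (hcov : ⋃₀ 𝒰 = Set.univ) :
    ∃ 𝒢 : ℕ → Set (Set Y), (∀ n, ∀ G ∈ 𝒢 n, IsOpen G ∧ ∃ U ∈ 𝒰, G ⊆ U) ∧
      ∀ y : Y, ∃ n, (∃ G ∈ 𝒢 n, y ∈ G) ∧ {G ∈ 𝒢 n | y ∈ G}.Finite := by
  classical
  let c : Y → C(Q, ℝ) := fun y => ⟨y.1.1, y.1.2⟩
  have hlab : ∀ n : ℕ, ∃ (lab : C(Q, ℝ) → ℕ) (V : C(Q, ℝ) → Set (Q → ℝ)), ∀ f : C(Q, ℝ),
      IsOpen (V f) ∧ ⇑f ∈ V f ∧ ∀ g : C(Q, ℝ), ⇑g ∈ V f → lab g = lab f →
        ‖f - g‖ ≤ 1 / ((n : ℝ) + 1) := by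
    intro n
    obtain ⟨lab, hlab⟩ := h (1 / ((n : ℝ) + 1)) (by positivity)
    choose V hV using fun f => hlab f (Set.mem_univ f)
    exact ⟨lab, V, fun f => ⟨(hV f).1, (hV f).2.1, fun g => (hV f).2.2 g (Set.mem_univ g)⟩⟩
  choose lab V hV using hlab
  -- the least member of the cover containing a point
  have hs : ∀ y : Y, ∃ U ∈ 𝒰, y ∈ U ∧ ∀ U' ∈ 𝒰, y ∈ U' → ¬ WellOrderingRel U' U := by
    intro y
    have h1 : ({U ∈ 𝒰 | y ∈ U}).Nonempty := by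
      have : y ∈ ⋃₀ 𝒰 := by rw [hcov]; trivial
      obtain ⟨U, hU1, hU2⟩ := this
      exact ⟨U, hU1, hU2⟩
    have wf : WellFounded (WellOrderingRel : Set Y → Set Y → Prop) := IsWellFounded.wf
    refine ⟨wf.min _ h1, (wf.min_mem _ h1).1, (wf.min_mem _ h1).2, ?_⟩
    intro U' hU' hy
    have h2 : U' ∈ {U ∈ 𝒰 | y ∈ U} := ⟨hU', hy⟩
    exact wf.not_lt_min _ h2
  choose s hs1 hs2 hs3 using hs
  -- norm balls
  have hball : ∀ y : Y, ∃ n : ℕ, ∀ z : Y, ‖c y - c z‖ ≤ 1 / ((n : ℝ) + 1) → z ∈ s y := by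
    intro y
    obtain ⟨O, hO1, hO2⟩ := isOpen_induced_iff.mp (hU (s y) (hs1 y))
    obtain ⟨O', hO'1, hO'2⟩ := isOpen_induced_iff.mp hO1
    have hopen : IsOpen ((fun f : C(Q, ℝ) => (f : Q → ℝ)) ⁻¹' O') :=
      hO'1.preimage continuous_coeFun
    have hmem : ∀ z : Y, z ∈ s y ↔ (c z : Q → ℝ) ∈ O' := by
      intro z
      rw [← hO2, ← hO'2]
      rfl
    obtain ⟨ρ, hρ, hball⟩ := Metric.isOpen_iff.mp hopen (c y) ((hmem y).mp (hs2 y))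
    obtain ⟨n, hn⟩ := exists_nat_one_div_lt hρ
    refine ⟨n, fun z hz => ?_⟩
    rw [hmem]
    apply hball
    rw [Metric.mem_ball, dist_eq_norm, norm_sub_rev]
    exact lt_of_le_of_lt hz hn
  let E : Set Y → ℕ → Set Y := fun U n => {y | s y = U ∧
    ∀ z : Y, ‖c y - c z‖ ≤ 1 / ((n : ℝ) + 1) → z ∈ s y}
  let G : Set Y → ℕ → ℕ → Set Y := fun U n j =>
    U ∩ ⋃ y ∈ {y | y ∈ E U n ∧ lab n (c y) = j}, {z : Y | (c z : Q → ℝ) ∈ V n (c y)}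
  refine ⟨fun m => {g | ∃ U ∈ 𝒰, g = G U m.unpair.1 m.unpair.2}, ?_, ?_⟩
  · rintro m _ ⟨U, hUU, rfl⟩
    refine ⟨?_, U, hUU, Set.inter_subset_left⟩
    apply (hU U hUU).inter
    apply isOpen_biUnion
    intro y _
    have : {z : Y | (c z : Q → ℝ) ∈ V m.unpair.1 (c y)} =
        (fun z : Y => z.1.1) ⁻¹' (V m.unpair.1 (c y)) := rfl
    rw [this]
    apply ((hV m.unpair.1 (c y)).1).preimage
    exact continuous_subtype_val.comp continuous_subtype_val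
  · intro x
    obtain ⟨n, hn⟩ := hball x
    refine ⟨Nat.pair n (lab n (c x)), ?_, ?_⟩
    · refine ⟨G (s x) n (lab n (c x)), ⟨s x, hs1 x, by rw [Nat.unpair_pair]⟩, hs2 x, ?_⟩
      rw [Set.mem_iUnion₂]
      exact ⟨x, ⟨⟨rfl, hn⟩, rfl⟩, (hV n (c x)).2.1⟩
    · refine (Set.finite_singleton (G (s x) n (lab n (c x)))).subset ?_
      rintro g ⟨⟨U, hUU, rfl⟩, hxU, hx⟩
      rw [Nat.unpair_pair] at hx ⊢
      rw [Set.mem_iUnion₂] at hx
      obtain ⟨y, ⟨⟨hy1, hy2⟩, hy3⟩, hy4⟩ := hx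
      have h1 : ‖c y - c x‖ ≤ 1 / ((n : ℝ) + 1) := (hV n (c y)).2.2 (c x) hy4 hy3.symm
      have h2 : y ∈ s x := hn y (by rw [norm_sub_rev]; exact h1)
      have h3 : ¬ WellOrderingRel (s x) U := by
        rw [← hy1]; exact hs3 y (s x) (hs1 x) h2
      have h4 : ¬ WellOrderingRel U (s x) := hs3 x U hUU hxU
      have h5 : U = s x := by
        rcases trichotomous_of WellOrderingRel U (s x) with h | h | h
        · exact absurd h h4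
        · exact h
        · exact absurd h h3
      rw [Set.mem_singleton_iff, h5]

end Pool.Agent.Lib_helper92.CpK
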